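import Mathlib

set_option autoImplicit false

/-!
# The arithmetic Kakeya problem for sets of local dimension at most one

The weighted count of fibres.  Cells are the squares of side `Q`; the projection with index `i < k`
is `k x + i y`.
-/

namespace Pool.Agent.N326.AK

open Finset

/-- the cell of side `Q` which contains the point -/
def par (Q : ℕ) (c : ℤ × ℤ) : ℤ × ℤ := (c.1 / (Q : ℤ), c.2 / (Q : ℤ))

/-- the projection with index `i` -/
def vv (k i : ℕ) (c : ℤ × ℤ) : ℤ := (k : ℤ) * c.1 + (i : ℤ) * c.2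

/-- the points of `A` in the same cell with nearly the same projection -/
def nb (Q k i : ℕ) (A : Finset (ℤ × ℤ)) (a : ℤ × ℤ) : Finset (ℤ × ℤ) :=
  A.filter fun b => par Q b = par Q a ∧ |vv k i b - vv k i a| < 2 * (k : ℤ)

/-- iterated cells -/
def up (Q : ℕ) : ℕ → Finset (ℤ × ℤ) → Finset (ℤ × ℤ)
  | 0, A => A
  | m + 1, A => up Q m (A.image (par Q))

/-- the sum of the logarithms of the numbers of neighbours on all levels -/
noncomputable def LS (Q k i : ℕ) : ℕ → Finset (ℤ × ℤ) → ℤ × ℤ → ℝ
  | 0, _, _ => 0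
  | m + 1, A, a => Real.log (nb Q k i A a).card + LS Q k i m (A.image (par Q)) (par Q a)

lemma self_mem_nb {Q k i : ℕ} (hk : 0 < k) {A : Finset (ℤ × ℤ)} {a : ℤ × ℤ} (ha : a ∈ A) :
    a ∈ nb Q k i A a := by
  simp only [nb, mem_filter, sub_self, abs_zero, true_and]
  refine ⟨ha, ?_⟩
  have : (0 : ℤ) < k := by exact_mod_cast hk
  linarith

/-- the projection of a point in terms of the projection of its cell -/
lemma vv_par {Q k i : ℕ} (hQ : 0 < Q) (hi : i < k) (a : ℤ × ℤ) :
    (Q : ℤ) * vv k i (par Q a) ≤ vv k i a ∧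
      vv k i a ≤ (Q : ℤ) * vv k i (par Q a) + 2 * k * (Q - 1) := by
  have hQ' : (0 : ℤ) < Q := by exact_mod_cast hQ
  have h1 := Int.emod_add_mul_ediv a.1 Q
  have h2 := Int.emod_add_mul_ediv a.2 Q
  have h3 := Int.emod_nonneg a.1 hQ'.ne'
  have h4 := Int.emod_nonneg a.2 hQ'.ne'
  have h5 := Int.emod_lt_of_pos a.1 hQ'
  have h6 := Int.emod_lt_of_pos a.2 hQ'
  have hi' : (i : ℤ) ≤ k := by exact_mod_cast hi.le
  have hi0 : (0 : ℤ) ≤ i := by positivity
  have hk0 : (0 : ℤ) ≤ k := by positivity
  have e : vv k i a = (Q : ℤ) * vv k i (par Q a) + (k * (a.1 % Q) + i * (a.2 % Q)) := by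
    simp only [vv, par]
    linear_combination (-(k : ℤ)) * h1 + (-(i : ℤ)) * h2
  rw [e]
  constructor
  · nlinarith [mul_nonneg hi0 h4, mul_nonneg hk0 h3]
  · have h7 : (i : ℤ) * (a.2 % Q) ≤ k * (Q - 1) := mul_le_mul hi' (by omega) h4 hk0
    have h8 : (k : ℤ) * (a.1 % Q) ≤ k * (Q - 1) := mul_le_mul_of_nonneg_left (by omega) hk0
    linarith

/-- **The weighted count of fibres.** -/
lemma fibre {Q k i : ℕ} (hQ : 0 < Q) (hi : i < k) (m : ℕ) :
    ∀ (A : Finset (ℤ × ℤ)) (V : ℤ),
      ∑ a ∈ A.filter (fun a => V - 2 * k < vv k i a ∧ vv k i a ≤ V),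
        Real.exp (-LS Q k i m A a) ≤ (up Q m A).card := by
  induction m with
  | zero =>
    intro A V
    simp only [LS, neg_zero, Real.exp_zero, up, sum_const, nsmul_eq_mul, mul_one]
    exact_mod_cast card_le_card (filter_subset _ _)
  | succ m ih =>
    intro A V
    have hQ' : (0 : ℤ) < Q := by exact_mod_cast hQ
    set A' := A.image (par Q) with hA'
    have hmaps : ∀ a ∈ A.filter (fun a => V - 2 * k < vv k i a ∧ vv k i a ≤ V),
        par Q a ∈ A'.filter (fun p => V / Q - 2 * k < vv k i p ∧ vv k i p ≤ V / Q) := by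
      intro a ha
      rw [mem_filter] at ha ⊢
      obtain ⟨h1, h2, h3⟩ := ha
      refine ⟨mem_image_of_mem _ h1, ?_, ?_⟩
      · have h4 := (vv_par hQ hi a).2
        have h5 : V / Q * Q ≤ V := Int.ediv_mul_le V hQ'.ne'
        by_contra hcon
        push Not at hcon
        have h6 : (Q : ℤ) * vv k i (par Q a) ≤ Q * (V / Q - 2 * k) :=
          mul_le_mul_of_nonneg_left hcon hQ'.le
        nlinarith
      · rw [Int.le_ediv_iff_mul_le hQ']
        have h4 := (vv_par hQ hi a).1
        linarith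
    rw [← sum_fiberwise_of_maps_to hmaps]
    refine le_trans (sum_le_sum fun p hp => ?_) (ih A' (V / Q))
    -- the sum over the children of one cell
    have h1 : ∀ a ∈ (A.filter (fun a => V - 2 * k < vv k i a ∧ vv k i a ≤ V)).filter
        (fun a => par Q a = p), Real.exp (-LS Q k i (m + 1) A a) ≤
          (((A.filter (fun a => V - 2 * k < vv k i a ∧ vv k i a ≤ V)).filter
            (fun a => par Q a = p)).card : ℝ)⁻¹ * Real.exp (-LS Q k i m A' p) := by
      intro a ha
      have ha0 := ha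
      rw [mem_filter, mem_filter] at ha
      obtain ⟨⟨h1, h2, h3⟩, h4⟩ := ha
      have hsub : (A.filter (fun a => V - 2 * k < vv k i a ∧ vv k i a ≤ V)).filter
          (fun a => par Q a = p) ⊆ nb Q k i A a := by
        intro b hb
        rw [mem_filter, mem_filter] at hb
        obtain ⟨⟨g1, g2, g3⟩, g4⟩ := hb
        rw [nb, mem_filter]
        refine ⟨g1, g4.trans h4.symm, ?_⟩
        rw [abs_lt]
        constructor <;> linarith
      have hc := card_le_card hsub
      have hpos : 0 < ((A.filter (fun a => V - 2 * k < vv k i a ∧ vv k i a ≤ V)).filter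
          (fun a => par Q a = p)).card := card_pos.2 ⟨a, ha0⟩
      have hpos2 : (0 : ℝ) < (nb Q k i A a).card := by
        exact_mod_cast lt_of_lt_of_le hpos hc
      have e : Real.exp (-LS Q k i (m + 1) A a) =
          ((nb Q k i A a).card : ℝ)⁻¹ * Real.exp (-LS Q k i m A' p) := by
        simp only [LS, ← hA', h4, neg_add, Real.exp_add, Real.exp_neg, Real.exp_log hpos2]
      rw [e]
      refine mul_le_mul_of_nonneg_right ?_ (Real.exp_pos _).le
      apply inv_anti₀
      · exact_mod_cast hpos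
      · exact_mod_cast hc
    refine le_trans (sum_le_card_nsmul _ _ _ h1) ?_
    rw [nsmul_eq_mul, ← mul_assoc]
    rcases Nat.eq_zero_or_pos ((A.filter (fun a => V - 2 * k < vv k i a ∧ vv k i a ≤ V)).filter
        (fun a => par Q a = p)).card with h | h
    · rw [h]
      simp only [Nat.cast_zero, zero_mul]
      exact (Real.exp_pos _).le
    · rw [mul_inv_cancel₀ (by exact_mod_cast h.ne'), one_mul]

end Pool.Agent.N326.AK
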