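import Pool.Agent.N326.AK.Main

set_option autoImplicit false

/-!
# The arithmetic Kakeya problem: Lipschitz sets and powers
-/

namespace Pool.Agent.N326.AK

open Finset

/-- `y` is a Lipschitz function of `x - y` -/
def Lip (L : ℕ) (A : Finset (ℤ × ℤ)) : Prop :=
  ∀ p ∈ A, ∀ q ∈ A, |p.2 - q.2| ≤ (L : ℤ) * |(p.1 - p.2) - (q.1 - q.2)|

/-- sticky sets: `y` to the precision `b ^ j` takes at most `C` values, given `x - y` to the same
precision -/
def Sticky (b C : ℕ) (A : Finset (ℤ × ℤ)) : Prop :=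
  ∀ (j : ℕ) (e : ℤ), ((A.filter fun p => (p.1 - p.2) / (b : ℤ) ^ j = e).image
    fun p => p.2 / (b : ℤ) ^ j).card ≤ C

/-- Lipschitz sets are sticky. -/
lemma sticky_of_lip {L : ℕ} {A : Finset (ℤ × ℤ)} (h : Lip L A) (b : ℕ) (hb : 2 ≤ b) :
    Sticky b (2 * L + 1) A := by
  intro j e
  have hpos : (0 : ℤ) < (b : ℤ) ^ j := by positivity
  rcases (A.filter fun p => (p.1 - p.2) / (b : ℤ) ^ j = e).eq_empty_or_nonempty with h0 | ⟨q, hq⟩
  · rw [h0]; simp
  rw [mem_filter] at hq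
  have hsub : ((A.filter fun p => (p.1 - p.2) / (b : ℤ) ^ j = e).image
      fun p => p.2 / (b : ℤ) ^ j) ⊆ Finset.Icc (q.2 / (b : ℤ) ^ j - L) (q.2 / (b : ℤ) ^ j + L) := by
    intro z hz
    rw [mem_image] at hz
    obtain ⟨p, hp, rfl⟩ := hz
    rw [mem_filter] at hp
    have h1 := h p hp.1 q hq.1
    have h2 : |(p.1 - p.2) - (q.1 - q.2)| < (b : ℤ) ^ j := by
      have e1 := Int.emod_add_mul_ediv (p.1 - p.2) ((b : ℤ) ^ j)
      have e2 := Int.emod_add_mul_ediv (q.1 - q.2) ((b : ℤ) ^ j)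
      have e3 := Int.emod_nonneg (p.1 - p.2) hpos.ne'
      have e4 := Int.emod_nonneg (q.1 - q.2) hpos.ne'
      have e5 := Int.emod_lt_of_pos (p.1 - p.2) hpos
      have e6 := Int.emod_lt_of_pos (q.1 - q.2) hpos
      rw [hp.2] at e1
      rw [hq.2] at e2
      rw [abs_lt]
      constructor <;> linarith
    have h3 : |p.2 - q.2| ≤ (L : ℤ) * (b : ℤ) ^ j :=
      h1.trans (mul_le_mul_of_nonneg_left h2.le (by positivity))
    rw [abs_le] at h3
    rw [Finset.mem_Icc]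
    have f1 := Int.ediv_le_ediv hpos (show q.2 + (-(L : ℤ)) * (b : ℤ) ^ j ≤ p.2 by linarith [h3.1])
    have f2 := Int.ediv_le_ediv hpos (show p.2 ≤ q.2 + (L : ℤ) * (b : ℤ) ^ j by linarith [h3.2])
    rw [Int.add_mul_ediv_right _ _ hpos.ne'] at f1 f2
    constructor
    · linarith
    · linarith
  refine (card_le_card hsub).trans ?_
  rw [Int.card_Icc]
  omega

/-- Sticky sets have local dimension at most one. -/
lemma localDim_of_sticky {b C : ℕ} (hb : 2 ≤ b) {A : Finset (ℤ × ℤ)} (h : Sticky b C A) :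
    LocalDim b (4 * C) 1 A := by
  classical
  intro j t z
  rw [Real.rpow_one]
  obtain ⟨q, hq⟩ : ∃ q : ℤ, q = (b : ℤ) ^ j := ⟨_, rfl⟩
  obtain ⟨r, hr⟩ : ∃ r : ℤ, r = (b : ℤ) ^ t := ⟨_, rfl⟩
  have hqpos : 0 < q := by rw [hq]; positivity
  have hrpos : 0 < r := by rw [hr]; positivity
  rw [← hq, ← hr]
  -- the cells of `y` above a cell of `x - y`
  obtain ⟨Y, hY⟩ : ∃ Y : ℤ → Finset ℤ, Y = fun e => (A.filter fun p => (p.1 - p.2) / q = e).image
    fun p => p.2 / q := ⟨_, rfl⟩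
  have hYc : ∀ e, (Y e).card ≤ C := by
    intro e
    rw [hY, hq]
    exact h j e
  obtain ⟨I, hI⟩ : ∃ I : Finset ℤ, I = Finset.Icc ((z.1 - z.2) * r - r) ((z.1 - z.2) * r + r - 1) :=
    ⟨_, rfl⟩
  have hIc : (I.card : ℤ) = 2 * r := by
    rw [hI, Int.card_Icc]
    omega
  have hsub : (cells q A).filter (fun c => cell r c = z) ⊆
      I.biUnion fun e => (Y e ×ˢ ({0, 1} : Finset ℤ)).image fun s => (e + s.1 + s.2, s.1) := by
    intro c hc
    rw [mem_filter, cells, mem_image] at hc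
    obtain ⟨⟨p, hp, hpc⟩, hcz⟩ := hc
    have g1 : c.1 = p.1 / q := by rw [← hpc]; rfl
    have g2 : c.2 = p.2 / q := by rw [← hpc]; rfl
    have g3 : c.1 / r = z.1 := by rw [← hcz]; rfl
    have g4 : c.2 / r = z.2 := by rw [← hcz]; rfl
    obtain ⟨e, he⟩ : ∃ e : ℤ, e = (p.1 - p.2) / q := ⟨_, rfl⟩
    -- the carry
    have k1 : e = c.1 - c.2 - 1 ∨ e = c.1 - c.2 := by
      have a1 := Int.emod_add_mul_ediv p.1 q
      have a2 := Int.emod_add_mul_ediv p.2 q
      have a3 := Int.emod_nonneg p.1 hqpos.ne'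
      have a4 := Int.emod_nonneg p.2 hqpos.ne'
      have a5 := Int.emod_lt_of_pos p.1 hqpos
      have a6 := Int.emod_lt_of_pos p.2 hqpos
      have b1 : c.1 - c.2 - 1 ≤ e := by
        rw [he, Int.le_ediv_iff_mul_le hqpos, g1, g2]
        nlinarith
      have b2 : e < c.1 - c.2 + 1 := by
        rw [he, Int.ediv_lt_iff_lt_mul hqpos, g1, g2]
        nlinarith
      omega
    have k2 : c.1 - c.2 ≤ (z.1 - z.2) * r + r - 1 ∧ (z.1 - z.2) * r - r + 1 ≤ c.1 - c.2 := by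
      have a1 := Int.emod_add_mul_ediv c.1 r
      have a2 := Int.emod_add_mul_ediv c.2 r
      have a3 := Int.emod_nonneg c.1 hrpos.ne'
      have a4 := Int.emod_nonneg c.2 hrpos.ne'
      have a5 := Int.emod_lt_of_pos c.1 hrpos
      have a6 := Int.emod_lt_of_pos c.2 hrpos
      rw [g3] at a1
      rw [g4] at a2
      constructor <;> nlinarith
    rw [mem_biUnion]
    refine ⟨e, ?_, ?_⟩
    · rw [hI, Finset.mem_Icc]
      rcases k1 with k | k <;> constructor <;> linarith [k2.1, k2.2]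
    · rw [mem_image]
      refine ⟨(c.2, c.1 - c.2 - e), ?_, ?_⟩
      · rw [mem_product]
        constructor
        · rw [hY]
          simp only [mem_image, mem_filter]
          exact ⟨p, ⟨hp, he.symm⟩, g2.symm⟩
        · simp only [mem_insert, mem_singleton]
          rcases k1 with k | k
          · right; linarith
          · left; linarith
      · refine Prod.ext ?_ rfl
        show e + c.2 + (c.1 - c.2 - e) = c.1
        ring
  have h1 : ((cells q A).filter fun c => cell r c = z).card ≤ ∑ e ∈ I, C * 2 := by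
    refine (card_le_card hsub).trans (card_biUnion_le.trans (sum_le_sum fun e _ => ?_))
    refine card_image_le.trans ?_
    rw [card_product]
    exact Nat.mul_le_mul (hYc e) (by simp)
  rw [sum_const, smul_eq_mul] at h1
  have h2 : (((cells q A).filter fun c => cell r c = z).card : ℝ) ≤ I.card * (C * 2) := by
    exact_mod_cast h1
  have h3 : (I.card : ℝ) = 2 * (b : ℝ) ^ t := by
    have : ((I.card : ℤ) : ℝ) = ((2 * r : ℤ) : ℝ) := by rw [hIc]
    rw [hr] at this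
    push_cast at this
    exact this
  rw [h3] at h2
  linarith

/-- **The arithmetic Kakeya conjecture for sets of local dimension at most `1 + η`.** -/
theorem local_one (ε K : ℝ) (hε : 0 < ε) (hK : 0 < K) (b : ℕ) (hb : 2 ≤ b) (C : ℝ) :
    ∃ (S : Finset ℚ) (η : ℝ), (-1 : ℚ) ∉ S ∧ 0 < η ∧ ∀ (A : Finset (ℤ × ℤ)) (N : ℕ),
      (∀ p ∈ A, |p.1| ≤ (N : ℤ) ∧ |p.2| ≤ (N : ℤ)) → (N : ℝ) ≤ (A.card : ℝ) ^ K →
      LocalDim b C (1 + η) A → ((proj (-1) A).card : ℝ) ≤ (big S A : ℝ) ^ (1 + ε) := by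
  obtain ⟨S, η, h1, h2, h3⟩ := local_dim ε K hε hK b hb C
  refine ⟨S, min η 1, h1, lt_min h2 one_pos, fun A N hA hN hd => ?_⟩
  have hη1 := min_le_right η 1
  have hη2 := min_le_left η 1
  have hη0 : 0 < min η 1 := lt_min h2 one_pos
  rcases A.eq_empty_or_nonempty with h0 | ⟨a, ha⟩
  · rw [h0]
    simp only [proj, image_empty, card_empty, Nat.cast_zero]
    exact Real.rpow_nonneg (by positivity) _
  rcases Nat.eq_zero_or_pos N with hN0 | hN0
  · -- one point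
    have h4 : (proj (-1) A).card ≤ big S A := by
      have h5 : A ⊆ {a} := by
        intro p hp
        have g1 := hA p hp
        have g2 := hA a ha
        rw [hN0] at g1 g2
        rw [mem_singleton]
        apply Prod.ext
        · rw [abs_eq_zero.1 (le_antisymm (by exact_mod_cast g1.1) (abs_nonneg p.1)),
            abs_eq_zero.1 (le_antisymm (by exact_mod_cast g2.1) (abs_nonneg a.1))]
        · rw [abs_eq_zero.1 (le_antisymm (by exact_mod_cast g1.2) (abs_nonneg p.2)),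
            abs_eq_zero.1 (le_antisymm (by exact_mod_cast g2.2) (abs_nonneg a.2))]
      have h6 : A.card ≤ 1 := (card_le_card h5).trans (by simp)
      have h7 : 1 ≤ (projInf A).card := card_pos.2 ⟨_, mem_image_of_mem _ ha⟩
      exact (card_proj_le A).trans (h6.trans (h7.trans (le_max_left _ _)))
    refine le_trans ?_ (nat_le_rpow _ hε)
    exact_mod_cast h4
  have hNr : (1 : ℝ) ≤ N := by exact_mod_cast hN0
  refine h3 A N (1 + min η 1) hA hN (by linarith) (by linarith) hd ?_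
  have h4 : (N : ℝ) ^ (1 + min η 1 - 1 - η) ≤ 1 :=
    Real.rpow_le_one_of_one_le_of_nonpos hNr (by linarith)
  have h5 : ((proj (-1) A).card : ℝ) ≤ A.card := by exact_mod_cast card_proj_le A
  calc ((proj (-1) A).card : ℝ) * (N : ℝ) ^ (1 + min η 1 - 1 - η) ≤ (proj (-1) A).card * 1 :=
        mul_le_mul_of_nonneg_left h4 (by positivity)
    _ ≤ _ := by linarith

/-- **The sticky case of the arithmetic Kakeya conjecture.** -/
theorem sticky (ε K : ℝ) (hε : 0 < ε) (hK : 0 < K) (b C : ℕ) (hb : 2 ≤ b) :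
    ∃ S : Finset ℚ, (-1 : ℚ) ∉ S ∧ ∀ (A : Finset (ℤ × ℤ)) (N : ℕ),
      (∀ p ∈ A, |p.1| ≤ (N : ℤ) ∧ |p.2| ≤ (N : ℤ)) → (N : ℝ) ≤ (A.card : ℝ) ^ K →
      Sticky b C A → ((proj (-1) A).card : ℝ) ≤ (big S A : ℝ) ^ (1 + ε) := by
  obtain ⟨S, η, h1, h2, h3⟩ := local_one ε K hε hK b hb (4 * C)
  exact ⟨S, h1, fun A N hA hN hs => h3 A N hA hN
    (localDim_mono hb (by positivity) (by linarith) (localDim_of_sticky hb hs))⟩

/-- powers -/
def pw (B : ℕ) (A : Finset (ℤ × ℤ)) : ℕ → Finset (ℤ × ℤ)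
  | 0 => {0}
  | m + 1 => (A ×ˢ pw B A m).image fun t => t.1 + (B : ℤ) • t.2

section
variable {B M L : ℕ} {A : Finset (ℤ × ℤ)}

lemma pw_box (hA : ∀ p ∈ A, |p.1| ≤ (M : ℤ) ∧ |p.2| ≤ (M : ℤ)) (hB : M + 1 ≤ B) (m : ℕ) :
    ∀ p ∈ pw B A m, |p.1| ≤ (B : ℤ) ^ m - 1 ∧ |p.2| ≤ (B : ℤ) ^ m - 1 := by
  induction m with
  | zero =>
    intro p hp
    rw [pw, mem_singleton] at hp
    subst hp
    simp
  | succ m ih =>
    intro p hp
    rw [pw, mem_image] at hp
    obtain ⟨⟨a, c⟩, ht, rfl⟩ := hp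
    rw [mem_product] at ht
    obtain ⟨ha, hc⟩ := ht
    have h1 := hA a ha
    have h2 := ih c hc
    have hB' : (M : ℤ) + 1 ≤ B := by exact_mod_cast hB
    have hB0 : (0 : ℤ) ≤ B := by positivity
    simp only [Prod.fst_add, Prod.snd_add, Prod.smul_fst, Prod.smul_snd, smul_eq_mul]
    have key : ∀ u v : ℤ, |u| ≤ M → |v| ≤ (B : ℤ) ^ m - 1 → |u + B * v| ≤ (B : ℤ) ^ (m + 1) - 1 := by
      intro u v hu hv
      calc |u + B * v| ≤ |u| + |(B : ℤ) * v| := abs_add_le _ _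
        _ = |u| + B * |v| := by rw [abs_mul, Nat.abs_cast]
        _ ≤ M + B * ((B : ℤ) ^ m - 1) := add_le_add hu (mul_le_mul_of_nonneg_left hv hB0)
        _ ≤ _ := by rw [pow_succ]; linarith
    exact ⟨key _ _ h1.1 h2.1, key _ _ h1.2 h2.2⟩

/-- the step of the induction -/
lemma pw_step (hA : ∀ p ∈ A, |p.1| ≤ (M : ℤ) ∧ |p.2| ≤ (M : ℤ))
    (hinj : ∀ p ∈ A, ∀ q ∈ A, p ≠ q → p.1 - p.2 ≠ q.1 - q.2)
    (hL : L = 2 * M + 1) (hB : 8 * M * M + 6 * M + 1 ≤ B) {P : Finset (ℤ × ℤ)}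
    (hP : ∀ p ∈ P, ∀ q ∈ P, p ≠ q → |p.2 - q.2| + 1 ≤ (L : ℤ) * |(p.1 - p.2) - (q.1 - q.2)|)
    {a a' c c' : ℤ × ℤ} (ha : a ∈ A) (ha' : a' ∈ A) (hc : c ∈ P) (hc' : c' ∈ P)
    (hne : (a, c) ≠ (a', c')) :
    |(a + (B : ℤ) • c).2 - (a' + (B : ℤ) • c').2| + 1 ≤
      (L : ℤ) * |((a + (B : ℤ) • c).1 - (a + (B : ℤ) • c).2) -
        ((a' + (B : ℤ) • c').1 - (a' + (B : ℤ) • c').2)| := by
  simp only [Prod.fst_add, Prod.snd_add, Prod.smul_fst, Prod.smul_snd, smul_eq_mul]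
  have h1 := hA a ha
  have h2 := hA a' ha'
  have hB' : (8 : ℤ) * M * M + 6 * M + 1 ≤ B := by exact_mod_cast hB
  have hM0 : (0 : ℤ) ≤ M := by positivity
  have hB0 : (0 : ℤ) ≤ B := by positivity
  have hLz : (L : ℤ) = 2 * M + 1 := by rw [hL]; push_cast; ring
  have hyy : |a.2 - a'.2| ≤ 2 * (M : ℤ) := (abs_sub _ _).trans (by linarith [h1.2, h2.2])
  have hxx : |a.1 - a'.1| ≤ 2 * (M : ℤ) := (abs_sub _ _).trans (by linarith [h1.1, h2.1])
  rcases eq_or_ne c c' with h | h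
  · subst h
    have haa : a ≠ a' := fun h => hne (by rw [h])
    have h3 := hinj a ha a' ha' haa
    have h4 : 1 ≤ |(a.1 - a.2) - (a'.1 - a'.2)| := Int.one_le_abs (sub_ne_zero.2 h3)
    have e1 : a.2 + B * c.2 - (a'.2 + B * c.2) = a.2 - a'.2 := by ring
    have e2 : a.1 + B * c.1 - (a.2 + B * c.2) - (a'.1 + B * c.1 - (a'.2 + B * c.2)) =
      (a.1 - a.2) - (a'.1 - a'.2) := by ring
    rw [e1, e2, hLz]
    nlinarith
  · have h3 := hP c hc c' hc' h
    set u := |c.2 - c'.2| with hu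
    set v := |(c.1 - c.2) - (c'.1 - c'.2)| with hv
    have e1 : a.2 + B * c.2 - (a'.2 + B * c'.2) = (a.2 - a'.2) + B * (c.2 - c'.2) := by ring
    have e2 : a.1 + B * c.1 - (a.2 + B * c.2) - (a'.1 + B * c'.1 - (a'.2 + B * c'.2)) =
      B * ((c.1 - c.2) - (c'.1 - c'.2)) - ((a.2 - a'.2) - (a.1 - a'.1)) := by ring
    rw [e1, e2]
    have h4 : |(a.2 - a'.2) + B * (c.2 - c'.2)| ≤ 2 * M + B * u := by
      calc _ ≤ |a.2 - a'.2| + |(B : ℤ) * (c.2 - c'.2)| := abs_add_le _ _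
        _ = |a.2 - a'.2| + B * u := by rw [abs_mul, Nat.abs_cast]
        _ ≤ _ := by linarith
    have h5 : B * v - 4 * M ≤
        |B * ((c.1 - c.2) - (c'.1 - c'.2)) - ((a.2 - a'.2) - (a.1 - a'.1))| := by
      have h6 := abs_sub_abs_le_abs_sub (B * ((c.1 - c.2) - (c'.1 - c'.2)))
        ((a.2 - a'.2) - (a.1 - a'.1))
      rw [abs_mul, Nat.abs_cast, ← hv] at h6
      have h7 : |(a.2 - a'.2) - (a.1 - a'.1)| ≤ 4 * M := (abs_sub _ _).trans (by linarith)
      linarith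
    have hLz0 : (0 : ℤ) ≤ L := by positivity
    have h6 := mul_le_mul_of_nonneg_left h5 hLz0
    have h7 : (B : ℤ) * (u + 1) ≤ B * (L * v) := mul_le_mul_of_nonneg_left h3 hB0
    have h8 : (L : ℤ) * (B * v - 4 * M) = B * (L * v) - 4 * M * (2 * M + 1) := by rw [hLz]; ring
    nlinarith

lemma pw_lip (hA : ∀ p ∈ A, |p.1| ≤ (M : ℤ) ∧ |p.2| ≤ (M : ℤ))
    (hinj : ∀ p ∈ A, ∀ q ∈ A, p ≠ q → p.1 - p.2 ≠ q.1 - q.2)
    (hL : L = 2 * M + 1) (hB : 8 * M * M + 6 * M + 1 ≤ B) (m : ℕ) :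
    ∀ p ∈ pw B A m, ∀ q ∈ pw B A m, p ≠ q →
      |p.2 - q.2| + 1 ≤ (L : ℤ) * |(p.1 - p.2) - (q.1 - q.2)| := by
  induction m with
  | zero =>
    intro p hp q hq hne
    rw [pw, mem_singleton] at hp hq
    exact absurd (hp.trans hq.symm) hne
  | succ m ih =>
    intro p hp q hq hne
    rw [pw, mem_image] at hp hq
    obtain ⟨⟨a, c⟩, ht, rfl⟩ := hp
    obtain ⟨⟨a', c'⟩, ht', rfl⟩ := hq
    rw [mem_product] at ht ht'
    refine pw_step hA hinj hL hB ih ht.1 ht'.1 ht.2 ht'.2 (fun h => hne ?_)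
    obtain ⟨h1, h2⟩ := Prod.mk.injEq .. ▸ h
    simp only at h1 h2
    simp only
    rw [h1, h2]

lemma pw_card (hA : ∀ p ∈ A, |p.1| ≤ (M : ℤ) ∧ |p.2| ≤ (M : ℤ))
    (hinj : ∀ p ∈ A, ∀ q ∈ A, p ≠ q → p.1 - p.2 ≠ q.1 - q.2)
    (hB : 8 * M * M + 6 * M + 1 ≤ B) (m : ℕ) : (pw B A m).card = A.card ^ m := by
  induction m with
  | zero => simp [pw]
  | succ m ih =>
    rw [pw, card_image_of_injOn, card_product, ih, pow_succ, mul_comm]
    rintro ⟨a, c⟩ ht ⟨a', c'⟩ ht' h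
    rw [mem_coe, mem_product] at ht ht'
    by_contra hne
    have h1 := pw_step hA hinj rfl hB (pw_lip hA hinj rfl hB m) ht.1 ht'.1 ht.2 ht'.2 hne
    simp only at h
    rw [h, sub_self, sub_self, abs_zero, mul_zero] at h1
    norm_num at h1

lemma pw_proj (r : ℚ) (m : ℕ) : (proj r (pw B A m)).card ≤ (proj r A).card ^ m := by
  induction m with
  | zero => simp [pw, proj]
  | succ m ih =>
    have hsub : proj r (pw B A (m + 1)) ⊆
        (proj r A ×ˢ proj r (pw B A m)).image fun t => t.1 + (B : ℚ) * t.2 := by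
      intro q hq
      rw [proj, mem_image] at hq
      obtain ⟨p, hp, rfl⟩ := hq
      rw [pw, mem_image] at hp
      obtain ⟨⟨a, c⟩, ht, rfl⟩ := hp
      rw [mem_product] at ht
      rw [mem_image]
      refine ⟨((a.1 : ℚ) + r * a.2, (c.1 : ℚ) + r * c.2), ?_, ?_⟩
      · rw [mem_product]
        exact ⟨mem_image_of_mem _ ht.1, mem_image_of_mem _ ht.2⟩
      · simp only [Prod.fst_add, Prod.snd_add, Prod.smul_fst, Prod.smul_snd, smul_eq_mul]
        push_cast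
        ring
    calc (proj r (pw B A (m + 1))).card ≤ _ := card_le_card hsub
      _ ≤ _ := card_image_le
      _ = (proj r A).card * (proj r (pw B A m)).card := card_product _ _
      _ ≤ (proj r A).card * (proj r A).card ^ m := Nat.mul_le_mul_left _ ih
      _ = _ := by rw [pow_succ, mul_comm]

lemma pw_projInf (m : ℕ) : (projInf (pw B A m)).card ≤ (projInf A).card ^ m := by
  induction m with
  | zero => simp [pw, projInf]
  | succ m ih =>
    have hsub : projInf (pw B A (m + 1)) ⊆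
        (projInf A ×ˢ projInf (pw B A m)).image fun t => t.1 + (B : ℚ) * t.2 := by
      intro q hq
      rw [projInf, mem_image] at hq
      obtain ⟨p, hp, rfl⟩ := hq
      rw [pw, mem_image] at hp
      obtain ⟨⟨a, c⟩, ht, rfl⟩ := hp
      rw [mem_product] at ht
      rw [mem_image]
      refine ⟨((a.2 : ℚ), (c.2 : ℚ)), ?_, ?_⟩
      · rw [mem_product]
        exact ⟨mem_image_of_mem _ ht.1, mem_image_of_mem _ ht.2⟩
      · simp only [Prod.snd_add, Prod.smul_snd, smul_eq_mul]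
        push_cast
        ring
    calc (projInf (pw B A (m + 1))).card ≤ _ := card_le_card hsub
      _ ≤ _ := card_image_le
      _ = (projInf A).card * (projInf (pw B A m)).card := card_product _ _
      _ ≤ (projInf A).card * (projInf A).card ^ m := Nat.mul_le_mul_left _ ih
      _ = _ := by rw [pow_succ, mul_comm]

lemma pw_big (S : Finset ℚ) (m : ℕ) : big S (pw B A m) ≤ (big S A) ^ m := by
  apply max_le
  · exact (pw_projInf m).trans (Nat.pow_le_pow_left (le_max_left _ _) m)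
  · apply Finset.sup_le
    intro r hr
    exact (pw_proj r m).trans (Nat.pow_le_pow_left (proj_le_big hr) m)

end

/-- the conjecture -/
def Conj : Prop := ∀ ε : ℝ, 0 < ε → ∃ S : Finset ℚ, (-1 : ℚ) ∉ S ∧ ∀ A : Finset (ℤ × ℤ),
  ((proj (-1) A).card : ℝ) ≤ (big S A : ℝ) ^ (1 + ε)

/-- the conjecture for large Lipschitz sets, with slopes which do not depend on the constants -/
def LipConj : Prop := ∀ ε : ℝ, 0 < ε → ∃ S : Finset ℚ, (-1 : ℚ) ∉ S ∧ ∀ (L : ℕ) (K : ℝ), 0 < K →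
  ∃ D₀ : ℕ, ∀ (A : Finset (ℤ × ℤ)) (N : ℕ),
    (∀ p ∈ A, |p.1| ≤ (N : ℤ) ∧ |p.2| ≤ (N : ℤ)) → (N : ℝ) ≤ ((proj (-1) A).card : ℝ) ^ K →
    Lip L A → D₀ ≤ (proj (-1) A).card → ((proj (-1) A).card : ℝ) ≤ (big S A : ℝ) ^ (1 + ε)

lemma big_mono_set (S : Finset ℚ) {A A' : Finset (ℤ × ℤ)} (h : A' ⊆ A) : big S A' ≤ big S A := by
  apply max_le_max
  · exact card_le_card (image_subset_image h)
  · apply Finset.sup_mono_fun
    intro r _
    exact card_le_card (image_subset_image h)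

theorem conj_of_lip (h : LipConj) : Conj := by
  classical
  intro ε hε
  obtain ⟨S, hS, hmain⟩ := h ε hε
  refine ⟨S, hS, fun A => ?_⟩
  -- representatives of the differences
  have h1 : ∀ q ∈ proj (-1) A, ∃ p ∈ A, (p.1 : ℚ) + (-1) * (p.2 : ℚ) = q := by
    intro q hq
    rw [proj, mem_image] at hq
    obtain ⟨p, hp, h⟩ := hq
    exact ⟨p, hp, h⟩
  choose! f hf1 hf2 using h1
  set A₁ := (proj (-1) A).image f with hA₁
  have hsub : A₁ ⊆ A := by
    intro p hp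
    rw [hA₁, mem_image] at hp
    obtain ⟨q, hq, rfl⟩ := hp
    exact hf1 q hq
  have hcard : A₁.card = (proj (-1) A).card := by
    apply card_image_of_injOn
    intro q hq q' hq' h
    rw [← hf2 q hq, ← hf2 q' hq', h]
  have hinj : ∀ p ∈ A₁, ∀ q ∈ A₁, p ≠ q → p.1 - p.2 ≠ q.1 - q.2 := by
    intro p hp q hq hne heq
    rw [hA₁, mem_image] at hp hq
    obtain ⟨u, hu, rfl⟩ := hp
    obtain ⟨v, hv, rfl⟩ := hq
    apply hne
    have e1 := hf2 u hu
    have e2 := hf2 v hv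
    have e3 : ((f u).1 : ℚ) - (f u).2 = (f v).1 - (f v).2 := by exact_mod_cast heq
    have : u = v := by rw [← e1, ← e2]; linarith
    rw [this]
  set D := (proj (-1) A).card with hD
  rcases lt_or_ge D 2 with hD2 | hD2
  · -- at most one difference
    have h2 : D ≤ big S A := by
      rcases A.eq_empty_or_nonempty with h0 | ⟨p, hp⟩
      · have : D = 0 := by rw [hD, h0]; rfl
        omega
      · have h3 : 1 ≤ (projInf A).card := card_pos.2 ⟨_, mem_image_of_mem _ hp⟩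
        exact (by omega : D ≤ 1).trans (h3.trans (le_max_left _ _))
    refine le_trans ?_ (nat_le_rpow _ hε)
    exact_mod_cast h2
  -- a bound for the coordinates
  obtain ⟨M, hM⟩ : ∃ M : ℕ, ∀ p ∈ A₁, |p.1| ≤ (M : ℤ) ∧ |p.2| ≤ (M : ℤ) := by
    refine ⟨A₁.sup fun p => max p.1.natAbs p.2.natAbs, fun p hp => ?_⟩
    have h2 := le_sup (f := fun p : ℤ × ℤ => max p.1.natAbs p.2.natAbs) hp
    constructor
    · rw [Int.abs_eq_natAbs]
      exact_mod_cast (le_max_left _ _).trans h2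
    · rw [Int.abs_eq_natAbs]
      exact_mod_cast (le_max_right _ _).trans h2
  set B := 8 * M * M + 6 * M + 2 with hB
  have hB1 : 8 * M * M + 6 * M + 1 ≤ B := by omega
  have hB2 : M + 1 ≤ B := by nlinarith
  have hDr : (1 : ℝ) < D := by exact_mod_cast (by omega : 1 < D)
  have hlogD : 0 < Real.log D := Real.log_pos hDr
  have hBr : (1 : ℝ) < B := by exact_mod_cast (by omega : 1 < B)
  set K := Real.log B / Real.log D with hK
  have hK0 : 0 < K := div_pos (Real.log_pos hBr) hlogD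
  obtain ⟨D₀, hD₀⟩ := hmain (2 * M + 1) K hK0
  -- the power
  have hm0 : D₀ + 1 ≠ 0 := by omega
  have hpc : (pw B A₁ (D₀ + 1)).card = D ^ (D₀ + 1) := by
    rw [pw_card hM hinj hB1, hcard]
  have hlip := pw_lip hM hinj rfl hB1 (D₀ + 1)
  have hpd : (proj (-1) (pw B A₁ (D₀ + 1))).card = D ^ (D₀ + 1) := by
    rw [← hpc]
    apply card_image_of_injOn
    intro p hp q hq h
    by_contra hne
    have h2 := hlip p hp q hq hne
    simp only at h
    have h3 : ((p.1 - p.2 : ℤ) : ℚ) = ((q.1 - q.2 : ℤ) : ℚ) := by push_cast; linarith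
    have h4 : p.1 - p.2 = q.1 - q.2 := by exact_mod_cast h3
    rw [h4, sub_self, abs_zero, mul_zero] at h2
    linarith [abs_nonneg (p.2 - q.2)]
  have h2 := hD₀ (pw B A₁ (D₀ + 1)) (B ^ (D₀ + 1)) ?_ ?_ ?_ ?_
  · rw [hpd] at h2
    have h3 : ((big S (pw B A₁ (D₀ + 1)) : ℕ) : ℝ) ≤ (big S A : ℝ) ^ (D₀ + 1) := by
      have h4 := (pw_big (B := B) (A := A₁) S (D₀ + 1)).trans
        (Nat.pow_le_pow_left (big_mono_set S hsub) (D₀ + 1))
      exact_mod_cast h4
    have h4 : ((D : ℝ)) ^ (D₀ + 1) ≤ ((big S A : ℝ) ^ (1 + ε)) ^ (D₀ + 1) := by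
      calc ((D : ℝ)) ^ (D₀ + 1) ≤ ((big S (pw B A₁ (D₀ + 1)) : ℕ) : ℝ) ^ (1 + ε) := by
            push_cast at h2
            exact h2
        _ ≤ ((big S A : ℝ) ^ (D₀ + 1)) ^ (1 + ε) :=
            Real.rpow_le_rpow (by positivity) h3 (by positivity)
        _ = ((big S A : ℝ) ^ (1 + ε)) ^ (D₀ + 1) := by
            rw [← Real.rpow_natCast, ← Real.rpow_natCast, ← Real.rpow_mul (by positivity),
              ← Real.rpow_mul (by positivity), mul_comm]
    exact (pow_le_pow_iff_left₀ (by positivity) (by positivity) hm0).1 h4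
  · intro p hp
    have h3 := pw_box hM hB2 (D₀ + 1) p hp
    push_cast
    constructor <;> linarith [h3.1, h3.2]
  · rw [hpd]
    push_cast
    have h3 : (D : ℝ) ^ K = B := by
      rw [hK, Real.rpow_def_of_pos (by linarith), mul_div_cancel₀ _ hlogD.ne',
        Real.exp_log (by linarith)]
    rw [← Real.rpow_natCast (D : ℝ), ← Real.rpow_mul (by positivity), mul_comm,
      Real.rpow_mul (by positivity), h3, Real.rpow_natCast]
  · intro p hp q hq
    rcases eq_or_ne p q with h3 | h3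
    · rw [h3]; simp
    · have h4 := hlip p hp q hq h3
      linarith
  · rw [hpd]
    have h3 : D₀ + 1 < 2 ^ (D₀ + 1) := Nat.lt_two_pow_self
    have h4 : 2 ^ (D₀ + 1) ≤ D ^ (D₀ + 1) := Nat.pow_le_pow_left hD2 _
    omega

/-- the conjecture for large sticky sets, with slopes which do not depend on the constants -/
def StickyConj (b : ℕ) : Prop := ∀ ε : ℝ, 0 < ε → ∃ S : Finset ℚ, (-1 : ℚ) ∉ S ∧
  ∀ (C : ℕ) (K : ℝ), 0 < K → ∃ D₀ : ℕ, ∀ (A : Finset (ℤ × ℤ)) (N : ℕ),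
    (∀ p ∈ A, |p.1| ≤ (N : ℤ) ∧ |p.2| ≤ (N : ℤ)) → (N : ℝ) ≤ ((proj (-1) A).card : ℝ) ^ K →
    Sticky b C A → D₀ ≤ (proj (-1) A).card → ((proj (-1) A).card : ℝ) ≤ (big S A : ℝ) ^ (1 + ε)

theorem conj_iff_sticky (b : ℕ) (hb : 2 ≤ b) : Conj ↔ StickyConj b := by
  refine ⟨fun h => ?_, fun h => conj_of_lip ?_⟩
  · intro ε hε
    obtain ⟨S, hS, h1⟩ := h ε hε
    exact ⟨S, hS, fun C K _ => ⟨0, fun A N _ _ _ _ => h1 A⟩⟩
  · intro ε hε
    obtain ⟨S, hS, h1⟩ := h ε hε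
    refine ⟨S, hS, fun L K hK => ?_⟩
    obtain ⟨D₀, h2⟩ := h1 (2 * L + 1) K hK
    exact ⟨D₀, fun A N hA hN hL hD => h2 A N hA hN (sticky_of_lip hL b hb) hD⟩

theorem conj_iff_lip : Conj ↔ LipConj := by
  refine ⟨fun h => ?_, conj_of_lip⟩
  intro ε hε
  obtain ⟨S, hS, h1⟩ := h ε hε
  exact ⟨S, hS, fun L K _ => ⟨0, fun A N _ _ _ _ => h1 A⟩⟩

end Pool.Agent.N326.AK
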