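import Pool.Agent.N326.AK.Univ

set_option autoImplicit false

/-!
# The arithmetic Kakeya problem for sets of local dimension at most one: the main theorems
-/

namespace Pool.Agent.N326.AK

open Finset

/-- the projection `π_r(A)` -/
def proj (r : ℚ) (A : Finset (ℤ × ℤ)) : Finset ℚ :=
  A.image (fun p : ℤ × ℤ => (p.1 : ℚ) + r * (p.2 : ℚ))

/-- the projection `π_∞(A)` -/
def projInf (A : Finset (ℤ × ℤ)) : Finset ℚ := A.image (fun p : ℤ × ℤ => (p.2 : ℚ))

/-- the largest size of a projection of `A` with slope `∞` or in `S` -/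
def big (S : Finset ℚ) (A : Finset (ℤ × ℤ)) : ℕ :=
  max (projInf A).card (S.sup fun r => (proj r A).card)

/-- the cell of side `q` -/
def cell (q : ℤ) (p : ℤ × ℤ) : ℤ × ℤ := (p.1 / q, p.2 / q)

/-- the cells of side `q` which meet `A` -/
def cells (q : ℤ) (A : Finset (ℤ × ℤ)) : Finset (ℤ × ℤ) := A.image (cell q)

/-- the local energy of `A` at `a` between the scales `q` and `Q q` -/
noncomputable def energy (Q : ℕ) (q : ℤ) (A : Finset (ℤ × ℤ)) (a : ℤ × ℤ) : ℝ :=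
  1 + 9 * ∑ c ∈ (cells q A).filter (fun c => cell Q c = cell Q (cell q a) ∧ c ≠ cell q a),
    1 / (dst (cell q a) c : ℝ)

lemma energy_eq (Q : ℕ) (q : ℤ) (A : Finset (ℤ × ℤ)) (a : ℤ × ℤ) :
    energy Q q A a = en Q (cells q A) (cell q a) := rfl

lemma par_cell (Q m : ℕ) (p : ℤ × ℤ) : par Q (cell ((Q : ℤ) ^ m) p) = cell ((Q : ℤ) ^ (m + 1)) p := by
  have hQ : (0 : ℤ) ≤ (Q : ℤ) ^ m := by positivity
  simp only [par, cell]
  rw [Int.ediv_ediv_of_nonneg hQ, Int.ediv_ediv_of_nonneg hQ, pow_succ]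

lemma image_par_cells (Q m : ℕ) (A : Finset (ℤ × ℤ)) :
    (cells ((Q : ℤ) ^ m) A).image (par Q) = cells ((Q : ℤ) ^ (m + 1)) A := by
  unfold cells
  rw [image_image]
  apply image_congr
  intro p _
  exact par_cell Q m p

lemma up_cells (Q : ℕ) (A : Finset (ℤ × ℤ)) (m : ℕ) :
    ∀ j, up Q m (cells ((Q : ℤ) ^ j) A) = cells ((Q : ℤ) ^ (m + j)) A := by
  induction m with
  | zero => intro j; simp [up]
  | succ m ih =>
    intro j
    simp only [up]
    rw [image_par_cells, ih]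
    congr 2
    omega

lemma LE_cells (Q : ℕ) (A : Finset (ℤ × ℤ)) (a : ℤ × ℤ) (m : ℕ) : ∀ j,
    LE Q m (cells ((Q : ℤ) ^ j) A) (cell ((Q : ℤ) ^ j) a) =
      ∑ l ∈ range m, Real.log (energy Q ((Q : ℤ) ^ (j + l)) A a) := by
  induction m with
  | zero => intro j; simp [LE]
  | succ m ih =>
    intro j
    simp only [LE]
    rw [image_par_cells, par_cell, ih, sum_range_succ', add_comm]
    congr 1
    apply sum_congr rfl
    intro l _
    congr 3
    omega

/-- **The universal inequality** in terms of the local energies. -/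
theorem universal' {Q : ℕ} (hQ : 0 < Q) (m : ℕ) (A : Finset (ℤ × ℤ)) (hA : A.Nonempty) :
    ∃ i : ℕ, i < Q ∧ (A.card : ℝ) ≤ (cells ((Q : ℤ) ^ m) A).card *
      Real.exp ((∑ a ∈ A, ∑ j ∈ range m, Real.log (energy Q ((Q : ℤ) ^ j) A a)) / A.card) *
        (proj (i / Q) A).card := by
  obtain ⟨i, hi, h⟩ := universal hQ m A hA
  refine ⟨i, mem_range.1 hi, ?_⟩
  have e0 : cells ((Q : ℤ) ^ 0) A = A := by
    unfold cells cell
    simp
  have e1 : up Q m A = cells ((Q : ℤ) ^ m) A := by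
    have := up_cells Q A m 0
    rw [e0, add_zero] at this
    exact this
  have e2 : ∀ a, LE Q m A a = ∑ j ∈ range m, Real.log (energy Q ((Q : ℤ) ^ j) A a) := by
    intro a
    have := LE_cells Q A a m 0
    rw [e0] at this
    simp only [zero_add] at this
    rw [← this]
    congr 1
    simp [cell]
  simp only [e2] at h
  rw [e1] at h
  refine h.trans (mul_le_mul_of_nonneg_left ?_ (by positivity))
  have hQ' : (Q : ℚ) ≠ 0 := by exact_mod_cast hQ.ne'
  have h1 : (A.image (vv Q i)).card ≤ (proj (i / Q) A).card := by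
    apply card_le_card_of_injOn (fun y : ℤ => (y : ℚ) / Q)
    · intro y hy
      rw [mem_coe, mem_image] at hy
      obtain ⟨p, hp, rfl⟩ := hy
      rw [mem_coe, proj, mem_image]
      refine ⟨p, hp, ?_⟩
      simp only [vv]
      push_cast
      field_simp
    · intro x _ y _ h
      simp only at h
      have : (x : ℚ) = y := by
        field_simp at h
        exact h
      exact_mod_cast this
  exact_mod_cast h1

/-- the slopes `i / Q`, `i < Q` -/
def slopes (Q : ℕ) : Finset ℚ := (range Q).image fun i : ℕ => (i : ℚ) / Q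

lemma neg_one_notMem_slopes (Q : ℕ) : (-1 : ℚ) ∉ slopes Q := by
  intro h
  rw [slopes, mem_image] at h
  obtain ⟨i, -, h⟩ := h
  have : (0 : ℚ) ≤ (i : ℚ) / Q := by positivity
  linarith

lemma proj_le_big {S : Finset ℚ} {A : Finset (ℤ × ℤ)} {r : ℚ} (hr : r ∈ S) :
    (proj r A).card ≤ big S A :=
  le_max_of_le_right (le_sup (f := fun r => (proj r A).card) hr)

lemma big_mono {S T : Finset ℚ} (h : S ⊆ T) (A : Finset (ℤ × ℤ)) : big S A ≤ big T A :=
  max_le_max le_rfl (sup_mono h)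

/-- few differences: many slopes -/
lemma small (T : ℕ) : ∀ A : Finset (ℤ × ℤ), (proj (-1) A).card ≤ T →
    (proj (-1) A).card ≤ big ((range (T * T + 1)).image fun n : ℕ => (n : ℚ)) A := by
  classical
  intro A hA
  -- representatives of the differences
  have h1 : ∀ q ∈ proj (-1) A, ∃ p ∈ A, (p.1 : ℚ) + (-1) * (p.2 : ℚ) = q := by
    intro q hq
    rw [proj, mem_image] at hq
    obtain ⟨p, hp, h⟩ := hq
    exact ⟨p, hp, h⟩
  choose! f hf1 hf2 using h1
  set D := proj (-1) A with hD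
  -- the bad slopes
  set bad : Finset ℚ := (D ×ˢ D).image fun t =>
    -(((f t.1).1 : ℚ) - (f t.2).1) / (((f t.1).2 : ℚ) - (f t.2).2) with hbad
  have hbadc : bad.card ≤ T * T := by
    refine card_image_le.trans ?_
    rw [card_product]
    exact Nat.mul_le_mul hA hA
  obtain ⟨r, hr, hrb⟩ : ∃ r ∈ (range (T * T + 1)).image (fun n : ℕ => (n : ℚ)), r ∉ bad := by
    by_contra hcon
    push Not at hcon
    have h2 := card_le_card (show (range (T * T + 1)).image (fun n : ℕ => (n : ℚ)) ⊆ bad from hcon)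
    rw [card_image_of_injective _ (fun a b h => by exact_mod_cast h), card_range] at h2
    omega
  refine le_trans ?_ (proj_le_big hr)
  apply card_le_card_of_injOn (fun q => ((f q).1 : ℚ) + r * ((f q).2 : ℚ))
  · intro q hq
    rw [mem_coe] at hq ⊢
    rw [proj, mem_image]
    exact ⟨f q, hf1 q hq, rfl⟩
  · intro q hq q' hq' h
    rw [mem_coe] at hq hq'
    simp only at h
    by_contra hne
    have g1 := hf2 q hq
    have g2 := hf2 q' hq'
    have h3 : ((f q).2 : ℚ) - (f q').2 ≠ 0 := by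
      intro h0
      apply hne
      have h4 : ((f q).2 : ℚ) = (f q').2 := by linarith
      rw [h4] at h
      rw [← g1, ← g2, h4]
      linarith
    apply hrb
    rw [hbad, mem_image]
    refine ⟨(q, q'), by rw [mem_product]; exact ⟨hq, hq'⟩, ?_⟩
    simp only
    rw [div_eq_iff h3]
    linarith

lemma nat_le_rpow (n : ℕ) {ε : ℝ} (hε : 0 < ε) : (n : ℝ) ≤ (n : ℝ) ^ (1 + ε) := by
  rcases Nat.eq_zero_or_pos n with h | h
  · subst h
    simp only [Nat.cast_zero]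
    exact Real.rpow_nonneg le_rfl _
  · exact Real.self_le_rpow_of_one_le (by exact_mod_cast h) (by linarith)

lemma cells_card_le {q : ℤ} {A : Finset (ℤ × ℤ)}
    (h : ∀ p ∈ A, |p.1| < q ∧ |p.2| < q) : (cells q A).card ≤ 4 := by
  have hsub : cells q A ⊆ ({-1, 0} : Finset ℤ) ×ˢ ({-1, 0} : Finset ℤ) := by
    intro c hc
    rw [cells, mem_image] at hc
    obtain ⟨p, hp, rfl⟩ := hc
    have h0 := h p hp
    have hpos : (0 : ℤ) < q := lt_of_le_of_lt (abs_nonneg _) h0.1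
    have key : ∀ z : ℤ, |z| < q → z / q = -1 ∨ z / q = 0 := by
      intro z hz
      rw [abs_lt] at hz
      have h1 : -1 ≤ z / q := by
        rw [Int.le_ediv_iff_mul_le hpos]
        linarith
      have h2 : z / q < 1 := by
        rw [Int.ediv_lt_iff_lt_mul hpos]
        linarith
      omega
    rw [mem_product]
    simp only [mem_insert, mem_singleton, cell]
    exact ⟨key _ h0.1, key _ h0.2⟩
  refine (card_le_card hsub).trans ?_
  simp

lemma card_proj_le (A : Finset (ℤ × ℤ)) : (proj (-1) A).card ≤ A.card := card_image_le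

/-- every cell of side `b ^ t q` contains at most `C (b ^ t) ^ s` cells of side `q = b ^ j` -/
def LocalDim (b : ℕ) (C s : ℝ) (A : Finset (ℤ × ℤ)) : Prop :=
  ∀ (j t : ℕ) (z : ℤ × ℤ), (((cells ((b : ℤ) ^ j) A).filter
    fun c => cell ((b : ℤ) ^ t) c = z).card : ℝ) ≤ C * ((b : ℝ) ^ t) ^ s

/-- the number of cells near a cell -/
lemma near {b : ℕ} (hb : 2 ≤ b) {C s : ℝ} {A : Finset (ℤ × ℤ)} (h : LocalDim b C s A)
    (j t : ℕ) (c₀ : ℤ × ℤ) :
    (((cells ((b : ℤ) ^ j) A).filter fun c => dst c₀ c < b ^ t).card : ℝ) ≤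
      9 * (C * ((b : ℝ) ^ t) ^ s) := by
  classical
  have hpos : (0 : ℤ) < (b : ℤ) ^ t := by positivity
  obtain ⟨Z, hZ⟩ : ∃ Z : Finset (ℤ × ℤ), Z =
    (({-1, 0, 1} : Finset ℤ) ×ˢ ({-1, 0, 1} : Finset ℤ)).image fun t' =>
      ((cell ((b : ℤ) ^ t) c₀).1 + t'.1, (cell ((b : ℤ) ^ t) c₀).2 + t'.2) := ⟨_, rfl⟩
  have hZc : Z.card ≤ 9 := by
    rw [hZ]
    refine card_image_le.trans ?_
    rw [card_product]
    simp
  have hsub : (cells ((b : ℤ) ^ j) A).filter (fun c => dst c₀ c < b ^ t) ⊆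
      Z.biUnion fun z => (cells ((b : ℤ) ^ j) A).filter fun c => cell ((b : ℤ) ^ t) c = z := by
    intro c hc
    rw [mem_filter] at hc
    rw [mem_biUnion]
    refine ⟨cell ((b : ℤ) ^ t) c, ?_, by rw [mem_filter]; exact ⟨hc.1, rfl⟩⟩
    have key : ∀ x y : ℤ, (y - x).natAbs < b ^ t →
        y / (b : ℤ) ^ t - x / (b : ℤ) ^ t ∈ ({-1, 0, 1} : Finset ℤ) := by
      intro x y hxy
      have h1 : |y - x| < (b : ℤ) ^ t := by
        rw [Int.abs_eq_natAbs]
        exact_mod_cast hxy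
      rw [abs_lt] at h1
      have f1 := Int.ediv_le_ediv hpos (show x + (-1) * (b : ℤ) ^ t ≤ y by linarith [h1.1])
      have f2 := Int.ediv_le_ediv hpos (show y ≤ x + 1 * (b : ℤ) ^ t by linarith [h1.2])
      rw [Int.add_mul_ediv_right _ _ hpos.ne'] at f1 f2
      simp only [mem_insert, mem_singleton]
      omega
    have h2 : dst c₀ c < b ^ t := hc.2
    unfold dst at h2
    rw [hZ, mem_image]
    refine ⟨((cell ((b : ℤ) ^ t) c).1 - (cell ((b : ℤ) ^ t) c₀).1,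
      (cell ((b : ℤ) ^ t) c).2 - (cell ((b : ℤ) ^ t) c₀).2), ?_, ?_⟩
    · rw [mem_product]
      exact ⟨key _ _ (lt_of_le_of_lt (le_max_left _ _) h2),
        key _ _ (lt_of_le_of_lt (le_max_right _ _) h2)⟩
    · simp
  have h0 : ((cells ((b : ℤ) ^ j) A).filter fun c => dst c₀ c < b ^ t).card ≤
      ∑ z ∈ Z, ((cells ((b : ℤ) ^ j) A).filter fun c => cell ((b : ℤ) ^ t) c = z).card :=
    (card_le_card hsub).trans card_biUnion_le
  have h1 : (((cells ((b : ℤ) ^ j) A).filter fun c => dst c₀ c < b ^ t).card : ℝ) ≤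
      ∑ z ∈ Z, (((cells ((b : ℤ) ^ j) A).filter fun c => cell ((b : ℤ) ^ t) c = z).card : ℝ) := by
    exact_mod_cast h0
  obtain ⟨R, hR⟩ : ∃ R : ℝ, R = C * ((b : ℝ) ^ t) ^ s := ⟨_, rfl⟩
  have h3 : ∀ z, (((cells ((b : ℤ) ^ j) A).filter
      fun c => cell ((b : ℤ) ^ t) c = z).card : ℝ) ≤ R := by
    intro z
    rw [hR]
    exact h j t z
  rw [← hR]
  have h2 : 0 ≤ R := (Nat.cast_nonneg _).trans (h3 (0, 0))
  have h4 : ∑ z ∈ Z, (((cells ((b : ℤ) ^ j) A).filter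
      fun c => cell ((b : ℤ) ^ t) c = z).card : ℝ) ≤ Z.card • R :=
    sum_le_card_nsmul _ _ _ fun z _ => h3 z
  have h5 : (Z.card : ℝ) ≤ 9 := by exact_mod_cast hZc
  rw [nsmul_eq_mul] at h4
  exact h1.trans (h4.trans (mul_le_mul_of_nonneg_right h5 h2))

/-- the local energy of a set of local dimension at most `1 + η` -/
lemma energy_le {b : ℕ} (hb : 2 ≤ b) {C η : ℝ} (hC : 1 ≤ C) (hη0 : 0 ≤ η)
    {A : Finset (ℤ × ℤ)} (h : LocalDim b C (1 + η) A) (j l : ℕ) (hl : 1 ≤ l) (a : ℤ × ℤ) :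
    energy (b ^ l) ((b : ℤ) ^ j) A a ≤ (1 + 81 * C * b ^ 2) * l * ((b : ℝ) ^ l) ^ η := by
  classical
  have hb0 : (0 : ℝ) < b := by positivity
  have hb1 : (1 : ℝ) ≤ b := by exact_mod_cast (by omega : 1 ≤ b)
  set c₀ := cell ((b : ℤ) ^ j) a with hc₀
  set F := (cells ((b : ℤ) ^ j) A).filter
    (fun c => cell ((b ^ l : ℕ) : ℤ) c = cell ((b ^ l : ℕ) : ℤ) c₀ ∧ c ≠ c₀) with hF
  -- dyadic decomposition
  have h1 : ∑ c ∈ F, 1 / (dst c₀ c : ℝ) ≤
      ∑ t ∈ range l, 9 * (C * ((b : ℝ) ^ (t + 1)) ^ (1 + η)) * (1 / (b : ℝ) ^ t) := by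
    have hmaps : ∀ c ∈ F, Nat.log b (dst c₀ c) ∈ range l := by
      intro c hc
      rw [hF, mem_filter] at hc
      rw [mem_range]
      have h2 : dst c₀ c < b ^ l := dst_lt (Q := b ^ l) (by positivity) hc.2.1
      exact Nat.log_lt_of_lt_pow (dst_pos hc.2.2).ne' h2
    rw [← sum_fiberwise_of_maps_to hmaps]
    apply sum_le_sum
    intro t _
    have h3 : ∀ c ∈ F.filter (fun c => Nat.log b (dst c₀ c) = t),
        1 / (dst c₀ c : ℝ) ≤ 1 / (b : ℝ) ^ t := by
      intro c hc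
      rw [mem_filter] at hc
      have hcF := hc.1
      rw [hF, mem_filter] at hcF
      apply one_div_le_one_div_of_le (by positivity)
      have h4 := Nat.pow_log_le_self b (dst_pos hcF.2.2).ne'
      rw [hc.2] at h4
      exact_mod_cast h4
    refine (sum_le_card_nsmul _ _ _ h3).trans ?_
    rw [nsmul_eq_mul]
    apply mul_le_mul_of_nonneg_right _ (by positivity)
    refine le_trans ?_ (near hb h j (t + 1) c₀)
    have h5 : F.filter (fun c => Nat.log b (dst c₀ c) = t) ⊆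
        (cells ((b : ℤ) ^ j) A).filter fun c => dst c₀ c < b ^ (t + 1) := by
      intro c hc
      rw [mem_filter] at hc
      have hcF := hc.1
      rw [hF, mem_filter] at hcF
      rw [mem_filter]
      refine ⟨hcF.1, ?_⟩
      have := Nat.lt_pow_succ_log_self (b := b) (by omega) (dst c₀ c)
      rwa [hc.2] at this
    exact_mod_cast card_le_card h5
  have h2 : ∀ t ∈ range l, 9 * (C * ((b : ℝ) ^ (t + 1)) ^ (1 + η)) * (1 / (b : ℝ) ^ t) ≤
      9 * C * b ^ 2 * ((b : ℝ) ^ l) ^ η := by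
    intro t ht
    rw [mem_range] at ht
    have e1 : ((b : ℝ) ^ (t + 1)) ^ (1 + η) = (b : ℝ) ^ (t + 1) * ((b : ℝ) ^ (t + 1)) ^ η := by
      rw [Real.rpow_add (by positivity), Real.rpow_one]
    have e2 : ((b : ℝ) ^ (t + 1)) ^ η ≤ ((b : ℝ) ^ l) ^ η :=
      Real.rpow_le_rpow (by positivity) (pow_le_pow_right₀ hb1 (by omega)) hη0
    rw [e1]
    have e3 : 9 * (C * ((b : ℝ) ^ (t + 1) * ((b : ℝ) ^ (t + 1)) ^ η)) * (1 / (b : ℝ) ^ t) =
        9 * C * b * ((b : ℝ) ^ (t + 1)) ^ η := by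
      rw [pow_succ]
      field_simp
    rw [e3]
    have e4 : (b : ℝ) ≤ b ^ 2 := by nlinarith
    have e5 : 0 ≤ ((b : ℝ) ^ (t + 1)) ^ η := by positivity
    gcongr
  have h3 := h1.trans (sum_le_card_nsmul _ _ _ h2)
  rw [card_range, nsmul_eq_mul] at h3
  have hl' : (1 : ℝ) ≤ l := by exact_mod_cast hl
  have h4 : (1 : ℝ) ≤ ((b : ℝ) ^ l) ^ η := Real.one_le_rpow (one_le_pow₀ hb1) hη0
  have h5 : (1 : ℝ) ≤ l * ((b : ℝ) ^ l) ^ η := by nlinarith
  unfold energy
  calc 1 + 9 * ∑ c ∈ F, 1 / (dst c₀ c : ℝ) ≤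
      l * ((b : ℝ) ^ l) ^ η + 9 * (l * (9 * C * b ^ 2 * ((b : ℝ) ^ l) ^ η)) := by linarith
    _ = _ := by ring

lemma exists_l (b : ℕ) (hb : 2 ≤ b) (c t : ℝ) (ht : 0 < t) : ∃ l : ℕ, 1 ≤ l ∧
    c * l ≤ ((b : ℝ) ^ l) ^ t := by
  have hb1 : (1 : ℝ) < b := by exact_mod_cast (by omega : 1 < b)
  have h1 : (1 : ℝ) < (b : ℝ) ^ t := Real.one_lt_rpow hb1 ht
  have h2 := (tendsto_pow_const_div_const_pow_of_one_lt 1 h1)
  have h3 : Filter.Tendsto (fun n : ℕ => c * ((n : ℝ) ^ 1 / ((b : ℝ) ^ t) ^ n)) Filter.atTop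
      (nhds (c * 0)) := h2.const_mul c
  rw [mul_zero] at h3
  obtain ⟨l, h4, h5⟩ := ((h3.eventually (gt_mem_nhds zero_lt_one)).and
    (Filter.eventually_ge_atTop 1)).exists
  refine ⟨l, h5, ?_⟩
  have hpos : (0 : ℝ) < ((b : ℝ) ^ t) ^ l := by positivity
  have e : ((b : ℝ) ^ l) ^ t = ((b : ℝ) ^ t) ^ l := by
    rw [← Real.rpow_natCast, ← Real.rpow_natCast, ← Real.rpow_mul (by positivity),
      ← Real.rpow_mul (by positivity), mul_comm]
  rw [e]
  rw [pow_one, ← mul_div_assoc, div_lt_one hpos] at h4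
  exact h4.le

/-- sets with few differences: one other projection is large -/
lemma few (A : Finset (ℤ × ℤ)) : A.card ≤ (proj (-1) A).card * (proj 0 A).card := by
  rw [← card_product]
  apply card_le_card_of_injOn fun p : ℤ × ℤ =>
    ((p.1 : ℚ) + (-1) * (p.2 : ℚ), (p.1 : ℚ) + 0 * (p.2 : ℚ))
  · intro p hp
    rw [mem_coe] at hp
    rw [mem_coe, mem_product]
    exact ⟨mem_image_of_mem _ hp, mem_image_of_mem _ hp⟩
  · intro p _ q _ h
    rw [Prod.mk.injEq] at h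
    obtain ⟨h1, h2⟩ := h
    have h3 : (p.1 : ℚ) = q.1 := by linarith
    have h4 : (p.2 : ℚ) = q.2 := by linarith
    exact Prod.ext (by exact_mod_cast h3) (by exact_mod_cast h4)

/-- **The arithmetic Kakeya conjecture for sets of local dimension at most `s`, if the fibres of
`x - y` have at least `N ^ (s - 1 - η)` elements on the average.** -/
theorem local_dim (ε K : ℝ) (hε : 0 < ε) (hK : 0 < K) (b : ℕ) (hb : 2 ≤ b) (C : ℝ) :
    ∃ (S : Finset ℚ) (η : ℝ), (-1 : ℚ) ∉ S ∧ 0 < η ∧ ∀ (A : Finset (ℤ × ℤ)) (N : ℕ) (s : ℝ),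
      (∀ p ∈ A, |p.1| ≤ (N : ℤ) ∧ |p.2| ≤ (N : ℤ)) → (N : ℝ) ≤ (A.card : ℝ) ^ K →
      1 ≤ s → s ≤ 2 → LocalDim b C s A →
      ((proj (-1) A).card : ℝ) * (N : ℝ) ^ (s - 1 - η) ≤ A.card →
      ((proj (-1) A).card : ℝ) ≤ (big S A : ℝ) ^ (1 + ε) := by
  wlog hC : 1 ≤ C generalizing C
  · obtain ⟨S, η, h1, h2, h3⟩ := this 1 le_rfl
    refine ⟨S, η, h1, h2, fun A N s hA hN hs1 hs2 hd hf =>
      h3 A N s hA hN hs1 hs2 (fun j t z => (hd j t z).trans ?_) hf⟩
    exact mul_le_mul_of_nonneg_right (not_le.1 hC).le (by positivity)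
  set τ : ℝ := ε / (2 * (1 + ε)) with hτ
  have hτ0 : 0 < τ := by positivity
  have hK2 : 0 < 2 * K := by linarith
  set σ : ℝ := τ / (2 * (2 * K)) with hσ
  have hσ0 : 0 < σ := by positivity
  set σ' : ℝ := min σ 1 with hσ'
  have hσ'0 : 0 < σ' := by rw [hσ']; exact lt_min hσ0 one_pos
  obtain ⟨l, hl1, hl2⟩ := exists_l b hb (1 + 81 * C * b ^ 2) σ' hσ'0
  set Q := b ^ l with hQdef
  have hQ2 : 2 ≤ Q := by
    calc 2 ≤ b := hb
      _ = b ^ 1 := (pow_one b).symm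
      _ ≤ b ^ l := Nat.pow_le_pow_right (by omega) hl1
  have hQpos : 0 < Q := by omega
  have hQr : (0 : ℝ) < Q := by exact_mod_cast hQpos
  have hQ1 : (1 : ℝ) ≤ Q := by exact_mod_cast (by omega : 1 ≤ Q)
  set T : ℕ := ⌈(4 * (Q : ℝ) ^ 2) ^ (1 / τ)⌉₊ with hT
  set S₁ : Finset ℚ := (range (T * T + 1)).image fun n : ℕ => (n : ℚ) with hS₁
  have h0S₁ : (0 : ℚ) ∈ S₁ := by
    rw [hS₁, mem_image]
    exact ⟨0, by simp, by simp⟩
  refine ⟨slopes Q ∪ S₁, σ, ?_, hσ0, ?_⟩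
  · rw [mem_union, not_or]
    refine ⟨neg_one_notMem_slopes Q, ?_⟩
    rw [hS₁, mem_image]
    rintro ⟨n, -, h⟩
    have : (0 : ℚ) ≤ n := by positivity
    linarith
  intro A N s hA hN hs1 hs2 hdim hf
  set D : ℕ := (proj (-1) A).card with hD
  set M : ℝ := (big (slopes Q ∪ S₁) A : ℝ) with hM
  have hM0 : 0 ≤ M := by positivity
  rcases le_or_gt D T with hDT | hDT
  · have h1 := (small T A hDT).trans (big_mono (subset_union_right (s₁ := slopes Q)) A)
    refine le_trans ?_ (nat_le_rpow _ hε)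
    exact_mod_cast h1
  -- few differences
  rcases le_or_gt (D * D) A.card with hfew | hfew
  · have h1 : D ≤ big (slopes Q ∪ S₁) A := by
      have h2 := few A
      have h3 : (proj 0 A).card ≤ big (slopes Q ∪ S₁) A :=
        proj_le_big (mem_union_right _ h0S₁)
      have h4 : D * D ≤ D * (proj 0 A).card := hfew.trans h2
      exact (Nat.le_of_mul_le_mul_left h4 (by omega)).trans h3
    refine le_trans ?_ (nat_le_rpow _ hε)
    exact_mod_cast h1
  have hD1 : (1 : ℝ) ≤ D := by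
    have : 1 ≤ D := by omega
    exact_mod_cast this
  have hD0 : (0 : ℝ) < D := by linarith
  have hN' : (N : ℝ) ≤ (D : ℝ) ^ (2 * K) := by
    have h1 : (A.card : ℝ) ≤ (D : ℝ) ^ (2 : ℝ) := by
      rw [Real.rpow_two, pow_two]
      exact_mod_cast hfew.le
    refine hN.trans ((Real.rpow_le_rpow (by positivity) h1 hK.le).trans (le_of_eq ?_))
    rw [← Real.rpow_mul hD0.le]
  have hAne : A.Nonempty := by
    rw [nonempty_iff_ne_empty]
    intro h0
    have : D = 0 := by rw [hD, h0]; rfl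
    omega
  -- `N ≥ 1`
  have hT1 : 1 ≤ T := by
    rw [hT, Nat.one_le_ceil_iff]
    positivity
  have hN1 : 1 ≤ N := by
    by_contra hcon
    have hN0 : N = 0 := by omega
    have h1 : proj (-1) A ⊆ {0} := by
      intro q hq
      rw [proj, mem_image] at hq
      obtain ⟨p, hp, rfl⟩ := hq
      have h2 := hA p hp
      rw [hN0] at h2
      have h3 : p.1 = 0 := abs_eq_zero.1 (le_antisymm (by exact_mod_cast h2.1) (abs_nonneg _))
      have h4 : p.2 = 0 := abs_eq_zero.1 (le_antisymm (by exact_mod_cast h2.2) (abs_nonneg _))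
      rw [mem_singleton, h3, h4]
      simp
    have h2 := card_le_card h1
    rw [card_singleton, ← hD] at h2
    omega
  have hNr : (1 : ℝ) ≤ N := by exact_mod_cast hN1
  have hNr0 : (0 : ℝ) < N := by linarith
  set m := Nat.clog Q (N + 1) with hm
  have hm1 : N + 1 ≤ Q ^ m := Nat.le_pow_clog (by omega) _
  have hm2 : Q ^ m ≤ Q * N := by
    have h1 : Q ^ (m - 1) < N + 1 := by
      have := Nat.pow_pred_clog_lt_self (b := Q) (by omega) (x := N + 1) (by omega)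
      simpa [hm] using this
    have h2 : 0 < m := Nat.clog_pos (by omega) (by omega)
    calc Q ^ m = Q * Q ^ (m - 1) := by rw [← pow_succ', Nat.sub_add_cancel h2]
      _ ≤ Q * N := Nat.mul_le_mul_left _ (by omega)
  have hm3 : (Q : ℝ) ^ m ≤ Q * N := by
    have h1 : ((Q ^ m : ℕ) : ℝ) ≤ ((Q * N : ℕ) : ℝ) := by exact_mod_cast hm2
    push_cast at h1
    exact h1
  -- the energies
  set κ : ℝ := σ' + (s - 1) with hκ
  have hκ0 : 0 < κ := by linarith
  have hκ2 : κ ≤ 2 := by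
    have := min_le_right σ 1
    rw [hκ, hσ']
    linarith
  have hen : ∀ j a, energy Q ((Q : ℤ) ^ j) A a ≤ (Q : ℝ) ^ κ := by
    intro j a
    have e : ((Q : ℤ)) ^ j = (b : ℤ) ^ (l * j) := by
      rw [hQdef, pow_mul]
      push_cast
      rfl
    have hdim' : LocalDim b C (1 + (s - 1)) A := by
      rw [add_sub_cancel]
      exact hdim
    have h1 := energy_le hb hC (by linarith : 0 ≤ s - 1) hdim' (l * j) l hl1 a
    rw [← e] at h1
    have hbl : ((b : ℝ) ^ l) = (Q : ℝ) := by rw [hQdef]; push_cast; rfl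
    rw [hbl] at h1 hl2
    calc energy Q ((Q : ℤ) ^ j) A a ≤ (1 + 81 * C * b ^ 2) * l * (Q : ℝ) ^ (s - 1) := h1
      _ ≤ (Q : ℝ) ^ σ' * (Q : ℝ) ^ (s - 1) :=
          mul_le_mul_of_nonneg_right hl2 (by positivity)
      _ = (Q : ℝ) ^ κ := by rw [← Real.rpow_add hQr]
  obtain ⟨i, hi, h⟩ := universal' hQpos m A hAne
  have h1 : ((proj (i / Q) A).card : ℝ) ≤ M := by
    have h2 : ((i : ℚ) / Q) ∈ slopes Q := by
      rw [slopes, mem_image]
      exact ⟨i, mem_range.2 hi, rfl⟩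
    have h3 := (proj_le_big h2).trans (big_mono (subset_union_left (s₂ := S₁)) A)
    rw [hM]
    exact_mod_cast h3
  have h2 : ((cells ((Q : ℤ) ^ m) A).card : ℝ) ≤ 4 := by
    have h3 : ∀ p ∈ A, |p.1| < (Q : ℤ) ^ m ∧ |p.2| < (Q : ℤ) ^ m := by
      intro p hp
      have h4 := hA p hp
      have h5 : ((N + 1 : ℕ) : ℤ) ≤ ((Q ^ m : ℕ) : ℤ) := by exact_mod_cast hm1
      push_cast at h5
      constructor <;> linarith [h4.1, h4.2]
    exact_mod_cast cells_card_le h3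
  have hAc : (0 : ℝ) < A.card := by exact_mod_cast card_pos.2 hAne
  have h4 : Real.exp ((∑ a ∈ A, ∑ j ∈ range m, Real.log (energy Q ((Q : ℤ) ^ j) A a)) / A.card) ≤
      (Q : ℝ) ^ 2 * (N : ℝ) ^ κ := by
    have h5 : (∑ a ∈ A, ∑ j ∈ range m, Real.log (energy Q ((Q : ℤ) ^ j) A a)) / A.card ≤
        m * Real.log ((Q : ℝ) ^ κ) := by
      rw [div_le_iff₀ hAc]
      have h6 : ∀ a ∈ A, ∑ j ∈ range m, Real.log (energy Q ((Q : ℤ) ^ j) A a) ≤
          m * Real.log ((Q : ℝ) ^ κ) := by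
        intro a _
        refine (sum_le_card_nsmul _ _ (Real.log ((Q : ℝ) ^ κ)) fun j _ => ?_).trans ?_
        · apply Real.log_le_log _ (hen j a)
          rw [energy_eq]
          linarith [one_le_en Q (cells ((Q : ℤ) ^ j) A) (cell ((Q : ℤ) ^ j) a)]
        · rw [card_range, nsmul_eq_mul]
      refine (sum_le_card_nsmul _ _ _ h6).trans ?_
      rw [nsmul_eq_mul, mul_comm]
    calc _ ≤ Real.exp (m * Real.log ((Q : ℝ) ^ κ)) := Real.exp_le_exp.2 h5
      _ = ((Q : ℝ) ^ κ) ^ m := by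
          rw [mul_comm, Real.exp_mul, Real.exp_log (by positivity), Real.rpow_natCast]
      _ = ((Q : ℝ) ^ m) ^ κ := by
          rw [← Real.rpow_natCast, ← Real.rpow_natCast, ← Real.rpow_mul hQr.le,
            ← Real.rpow_mul hQr.le, mul_comm]
      _ ≤ ((Q : ℝ) * N) ^ κ := Real.rpow_le_rpow (by positivity) hm3 hκ0.le
      _ = (Q : ℝ) ^ κ * (N : ℝ) ^ κ := Real.mul_rpow hQr.le hNr0.le
      _ ≤ (Q : ℝ) ^ (2 : ℝ) * (N : ℝ) ^ κ := by
          apply mul_le_mul_of_nonneg_right _ (by positivity)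
          exact Real.rpow_le_rpow_of_exponent_le hQ1 hκ2
      _ = _ := by rw [Real.rpow_two]
  have h5 : 4 * (Q : ℝ) ^ 2 ≤ (D : ℝ) ^ τ := by
    have h6 : (4 * (Q : ℝ) ^ 2) ^ (1 / τ) ≤ D := by
      refine (Nat.le_ceil _).trans ?_
      rw [← hT]
      exact_mod_cast hDT.le
    calc 4 * (Q : ℝ) ^ 2 = ((4 * (Q : ℝ) ^ 2) ^ (1 / τ)) ^ τ := by
          rw [← Real.rpow_mul (by positivity), one_div, inv_mul_cancel₀ hτ0.ne', Real.rpow_one]
      _ ≤ (D : ℝ) ^ τ := Real.rpow_le_rpow (by positivity) h6 hτ0.le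
  -- conclusion
  have h6 : (D : ℝ) * (N : ℝ) ^ (s - 1 - σ) ≤ (D : ℝ) ^ τ * (N : ℝ) ^ κ * M := by
    refine hf.trans (h.trans ?_)
    calc (cells ((Q : ℤ) ^ m) A).card *
        Real.exp ((∑ a ∈ A, ∑ j ∈ range m, Real.log (energy Q ((Q : ℤ) ^ j) A a)) / A.card) *
          ((proj (i / Q) A).card : ℝ) ≤ 4 * ((Q : ℝ) ^ 2 * (N : ℝ) ^ κ) * M := by gcongr
      _ = (4 * (Q : ℝ) ^ 2) * (N : ℝ) ^ κ * M := by ring
      _ ≤ _ := by gcongr
  have h7 : (D : ℝ) ≤ (D : ℝ) ^ τ * (D : ℝ) ^ τ * M := by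
    have e1 : (N : ℝ) ^ κ = (N : ℝ) ^ (s - 1 - σ) * (N : ℝ) ^ (σ + σ') := by
      rw [← Real.rpow_add hNr0, hκ]
      ring_nf
    rw [e1] at h6
    have e2 : (0 : ℝ) < (N : ℝ) ^ (s - 1 - σ) := Real.rpow_pos_of_pos hNr0 _
    have e3 : (D : ℝ) ≤ (D : ℝ) ^ τ * (N : ℝ) ^ (σ + σ') * M := by
      have e4 : (N : ℝ) ^ (s - 1 - σ) * (D : ℝ) ≤
          (N : ℝ) ^ (s - 1 - σ) * ((D : ℝ) ^ τ * (N : ℝ) ^ (σ + σ') * M) := by linarith
      exact le_of_mul_le_mul_left e4 e2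
    have e5 : (N : ℝ) ^ (σ + σ') ≤ (D : ℝ) ^ τ := by
      calc (N : ℝ) ^ (σ + σ') ≤ (N : ℝ) ^ (2 * σ) := by
            apply Real.rpow_le_rpow_of_exponent_le hNr
            have := min_le_left σ 1
            rw [hσ']
            linarith
        _ ≤ ((D : ℝ) ^ (2 * K)) ^ (2 * σ) := Real.rpow_le_rpow hNr0.le hN' (by positivity)
        _ = (D : ℝ) ^ τ := by
            rw [← Real.rpow_mul hD0.le]
            congr 1
            rw [hσ]
            field_simp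
    refine e3.trans ?_
    gcongr
  have h8 : (D : ℝ) ^ (1 / (1 + ε)) ≤ M := by
    have h9 : (D : ℝ) ^ τ * (D : ℝ) ^ τ = (D : ℝ) ^ (2 * τ) := by
      rw [← Real.rpow_add hD0]
      ring_nf
    rw [h9] at h7
    have h10 : (D : ℝ) = (D : ℝ) ^ (2 * τ) * (D : ℝ) ^ (1 / (1 + ε)) := by
      rw [← Real.rpow_add hD0]
      have : 2 * τ + 1 / (1 + ε) = 1 := by
        rw [hτ]
        field_simp
        ring
      rw [this, Real.rpow_one]
    have h11 : (0 : ℝ) < (D : ℝ) ^ (2 * τ) := Real.rpow_pos_of_pos hD0 _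
    nth_rewrite 1 [h10] at h7
    exact le_of_mul_le_mul_left h7 h11
  calc (D : ℝ) = ((D : ℝ) ^ (1 / (1 + ε))) ^ (1 + ε) := by
        rw [← Real.rpow_mul hD0.le, one_div, inv_mul_cancel₀ (by positivity), Real.rpow_one]
    _ ≤ _ := Real.rpow_le_rpow (Real.rpow_nonneg hD0.le _) h8 (by positivity)

/-- A bound for the local dimension is monotone in the exponent. -/
lemma localDim_mono {b : ℕ} (hb : 2 ≤ b) {C s s' : ℝ} (hC : 0 ≤ C) (hs : s ≤ s')
    {A : Finset (ℤ × ℤ)} (h : LocalDim b C s A) : LocalDim b C s' A := by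
  intro j t z
  refine (h j t z).trans (mul_le_mul_of_nonneg_left ?_ hC)
  have hb1 : (1 : ℝ) ≤ b := by exact_mod_cast (by omega : 1 ≤ b)
  exact Real.rpow_le_rpow_of_exponent_le (one_le_pow₀ hb1) hs

/-- a set of differences of a subset of `[-N, N] ^ 2` -/
lemma diff_card_le {N : ℕ} {A : Finset (ℤ × ℤ)}
    (hA : ∀ p ∈ A, |p.1| ≤ (N : ℤ) ∧ |p.2| ≤ (N : ℤ)) : (proj (-1) A).card ≤ 4 * N + 1 := by
  have hsub : proj (-1) A ⊆ (Finset.Icc (-(2 * N : ℤ)) (2 * N)).image fun z : ℤ => (z : ℚ) := by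
    intro q hq
    rw [proj, mem_image] at hq
    obtain ⟨p, hp, rfl⟩ := hq
    rw [mem_image]
    refine ⟨p.1 - p.2, ?_, by push_cast; ring⟩
    have h := hA p hp
    rw [abs_le, abs_le] at h
    rw [Finset.mem_Icc]
    constructor <;> linarith [h.1.1, h.1.2, h.2.1, h.2.2]
  refine (card_le_card hsub).trans (card_image_le.trans ?_)
  rw [Int.card_Icc]
  omega

/-- regular sets of dimension `s` -/
def Regular (b : ℕ) (C s : ℝ) (N : ℕ) (A : Finset (ℤ × ℤ)) : Prop :=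
  (∀ p ∈ A, |p.1| ≤ (N : ℤ) ∧ |p.2| ≤ (N : ℤ)) ∧ LocalDim b C s A ∧
    ∀ j t : ℕ, b ^ (j + t) ≤ N → ∀ z ∈ cells ((b : ℤ) ^ (j + t)) A,
      ((b : ℝ) ^ t) ^ s ≤ C * (((cells ((b : ℤ) ^ j) A).filter
        fun c => cell ((b : ℤ) ^ t) c = z).card : ℝ)

/-- **The arithmetic Kakeya conjecture for regular sets of all dimensions.** -/
theorem regular (ε s₀ : ℝ) (hε : 0 < ε) (hs₀ : 0 < s₀) (b : ℕ) (hb : 2 ≤ b) (C : ℝ) :
    ∃ S : Finset ℚ, (-1 : ℚ) ∉ S ∧ ∀ (A : Finset (ℤ × ℤ)) (N : ℕ) (s : ℝ), s₀ ≤ s → s ≤ 2 →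
      Regular b C s N A → ((proj (-1) A).card : ℝ) ≤ (big S A : ℝ) ^ (1 + ε) := by
  obtain ⟨S, η, hS, hη, hmain⟩ := local_dim ε (2 / s₀) hε (by positivity) b hb (max C 1)
  set C' : ℝ := max C 1 with hC'
  have hC1 : 1 ≤ C' := le_max_right _ _
  have hC0 : 0 < C' := by linarith
  have hb0 : (0 : ℝ) < b := by positivity
  have hb1 : (1 : ℝ) ≤ b := by exact_mod_cast (by omega : 1 ≤ b)
  -- the bound for small `N`
  set R : ℝ := max ((C' * b ^ 2) ^ (2 / s₀)) ((5 * C' * b ^ 2) ^ (1 / η)) with hR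
  set T : ℕ := 5 * (⌈R⌉₊ + 1) with hT
  set S₁ : Finset ℚ := (range (T * T + 1)).image fun n : ℕ => (n : ℚ) with hS₁
  refine ⟨S ∪ S₁, ?_, ?_⟩
  · rw [mem_union, not_or]
    refine ⟨hS, ?_⟩
    rw [hS₁, mem_image]
    rintro ⟨n, -, h⟩
    have : (0 : ℚ) ≤ n := by positivity
    linarith
  intro A N s hs1 hs2 hreg
  obtain ⟨hA, hdim, hlow⟩ := hreg
  have hdiff := diff_card_le hA
  rcases le_or_gt N (⌈R⌉₊ + 1) with hNR | hNR
  · have h1 : (proj (-1) A).card ≤ T := by omega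
    have h2 := (small T A h1).trans (big_mono (subset_union_right (s₁ := S)) A)
    refine le_trans ?_ (nat_le_rpow _ hε)
    exact_mod_cast h2
  rcases A.eq_empty_or_nonempty with h0 | ⟨a, ha⟩
  · rw [h0]
    simp only [proj, image_empty, card_empty, Nat.cast_zero]
    exact Real.rpow_nonneg (by positivity) _
  have hN1 : 1 ≤ N := by omega
  have hNr : (1 : ℝ) ≤ N := by exact_mod_cast hN1
  have hNr0 : (0 : ℝ) < N := by linarith
  have hNR' : R ≤ N := (Nat.le_ceil R).trans (by exact_mod_cast (by omega : ⌈R⌉₊ ≤ N))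
  have hR1 : (C' * b ^ 2) ^ (2 / s₀) ≤ N := (le_max_left _ _).trans hNR'
  have hR2 : (5 * C' * b ^ 2) ^ (1 / η) ≤ N := (le_max_right _ _).trans hNR'
  -- lower bound for the number of elements
  have hcard : (N : ℝ) ^ s ≤ C' * b ^ 2 * A.card := by
    set t := Nat.log b N with ht
    have h1 : b ^ (0 + t) ≤ N := by rw [zero_add]; exact Nat.pow_log_le_self b (by omega)
    have h2 := hlow 0 t h1 (cell ((b : ℤ) ^ (0 + t)) a) (mem_image_of_mem _ ha)
    have h3 : (((cells ((b : ℤ) ^ 0) A).filter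
        fun c => cell ((b : ℤ) ^ t) c = cell ((b : ℤ) ^ (0 + t)) a).card : ℝ) ≤ A.card := by
      exact_mod_cast (card_filter_le _ _).trans card_image_le
    have h4 : (N : ℝ) ≤ b * (b : ℝ) ^ t := by
      have := Nat.lt_pow_succ_log_self (b := b) (by omega) N
      rw [← ht, pow_succ'] at this
      exact_mod_cast this.le
    calc (N : ℝ) ^ s ≤ (b * (b : ℝ) ^ t) ^ s := Real.rpow_le_rpow hNr0.le h4 (by linarith)
      _ = (b : ℝ) ^ s * ((b : ℝ) ^ t) ^ s := Real.mul_rpow hb0.le (by positivity)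
      _ ≤ (b : ℝ) ^ (2 : ℝ) * (C' * A.card) := by
          apply mul_le_mul _ _ (by positivity) (by positivity)
          · exact Real.rpow_le_rpow_of_exponent_le hb1 hs2
          · refine h2.trans (mul_le_mul (le_max_left _ _) h3 (by positivity) (by positivity))
      _ = _ := by rw [Real.rpow_two]; ring
  have hcc : 0 < C' * b ^ 2 := by positivity
  -- growth
  have hgrow : (N : ℝ) ≤ (A.card : ℝ) ^ (2 / s₀) := by
    have h1 : C' * b ^ 2 ≤ (N : ℝ) ^ (s₀ / 2) := by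
      calc C' * b ^ 2 = ((C' * b ^ 2) ^ (2 / s₀)) ^ (s₀ / 2) := by
            rw [← Real.rpow_mul hcc.le]
            have : 2 / s₀ * (s₀ / 2) = 1 := by field_simp
            rw [this, Real.rpow_one]
        _ ≤ _ := Real.rpow_le_rpow (by positivity) hR1 (by positivity)
    have h2 : (N : ℝ) ^ s₀ ≤ (N : ℝ) ^ (s₀ / 2) * A.card := by
      calc (N : ℝ) ^ s₀ ≤ (N : ℝ) ^ s := Real.rpow_le_rpow_of_exponent_le hNr hs1
        _ ≤ C' * b ^ 2 * A.card := hcard
        _ ≤ _ := mul_le_mul_of_nonneg_right h1 (by positivity)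
    have h3 : (N : ℝ) ^ s₀ = (N : ℝ) ^ (s₀ / 2) * (N : ℝ) ^ (s₀ / 2) := by
      rw [← Real.rpow_add hNr0]
      ring_nf
    rw [h3] at h2
    have h4 : (N : ℝ) ^ (s₀ / 2) ≤ A.card :=
      le_of_mul_le_mul_left h2 (Real.rpow_pos_of_pos hNr0 _)
    calc (N : ℝ) = ((N : ℝ) ^ (s₀ / 2)) ^ (2 / s₀) := by
          rw [← Real.rpow_mul hNr0.le]
          have : s₀ / 2 * (2 / s₀) = 1 := by field_simp
          rw [this, Real.rpow_one]
      _ ≤ _ := Real.rpow_le_rpow (by positivity) h4 (by positivity)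
  have hdimC : LocalDim b C' s A := fun j t z => (hdim j t z).trans
    (mul_le_mul_of_nonneg_right (le_max_left _ _) (by positivity))
  have hfin : ((proj (-1) A).card : ℝ) ≤ (big S A : ℝ) ^ (1 + ε) := by
    rcases le_or_gt s 1 with hcase | hcase
    · refine hmain A N 1 hA hgrow le_rfl (by norm_num) (localDim_mono hb hC0.le hcase hdimC) ?_
      have h1 : (N : ℝ) ^ (1 - 1 - η) ≤ 1 :=
        Real.rpow_le_one_of_one_le_of_nonpos hNr (by linarith)
      have h2 : ((proj (-1) A).card : ℝ) ≤ A.card := by exact_mod_cast card_proj_le A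
      calc ((proj (-1) A).card : ℝ) * (N : ℝ) ^ (1 - 1 - η) ≤ (proj (-1) A).card * 1 :=
            mul_le_mul_of_nonneg_left h1 (by positivity)
        _ ≤ _ := by linarith
    · refine hmain A N s hA hgrow hcase.le hs2 hdimC ?_
      have h1 : 5 * C' * b ^ 2 ≤ (N : ℝ) ^ η := by
        calc 5 * C' * b ^ 2 = ((5 * C' * b ^ 2) ^ (1 / η)) ^ η := by
              rw [← Real.rpow_mul (by positivity), one_div, inv_mul_cancel₀ hη.ne', Real.rpow_one]
          _ ≤ _ := Real.rpow_le_rpow (by positivity) hR2 hη.le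
      have h2 : ((proj (-1) A).card : ℝ) ≤ 5 * N := by
        have : (proj (-1) A).card ≤ 5 * N := by omega
        exact_mod_cast this
      have h3 : (N : ℝ) * (N : ℝ) ^ (s - 1 - η) * (N : ℝ) ^ η = (N : ℝ) ^ s := by
        have h0 : (N : ℝ) = (N : ℝ) ^ (1 : ℝ) := (Real.rpow_one _).symm
        nth_rewrite 1 [h0]
        rw [← Real.rpow_add hNr0, ← Real.rpow_add hNr0]
        ring_nf
      have h4 : (N : ℝ) * (N : ℝ) ^ (s - 1 - η) * (5 * C' * b ^ 2) ≤ C' * b ^ 2 * A.card := by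
        calc _ ≤ (N : ℝ) * (N : ℝ) ^ (s - 1 - η) * (N : ℝ) ^ η :=
              mul_le_mul_of_nonneg_left h1 (by positivity)
          _ = (N : ℝ) ^ s := h3
          _ ≤ _ := hcard
      have h5 : 5 * N * (N : ℝ) ^ (s - 1 - η) ≤ A.card := by
        have h6 : C' * b ^ 2 * (5 * N * (N : ℝ) ^ (s - 1 - η)) ≤ C' * b ^ 2 * A.card := by
          linarith
        exact le_of_mul_le_mul_left h6 hcc
      exact (mul_le_mul_of_nonneg_right h2 (by positivity)).trans h5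
  refine hfin.trans (Real.rpow_le_rpow (by positivity) ?_ (by positivity))
  exact_mod_cast big_mono subset_union_left A

end Pool.Agent.N326.AK
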