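import Pool.Agent.N326.AK.Core

set_option autoImplicit false

/-!
# The arithmetic Kakeya problem: the universal inequality with local energies
-/

namespace Pool.Agent.N326.AK

open Finset

/-- the distance in the maximum norm -/
def dst (a b : ℤ × ℤ) : ℕ := max (b.1 - a.1).natAbs (b.2 - a.2).natAbs

/-- the local energy of `A` at `a` (inside the cell of side `Q`) -/
noncomputable def en (Q : ℕ) (A : Finset (ℤ × ℤ)) (a : ℤ × ℤ) : ℝ :=
  1 + 9 * ∑ b ∈ A.filter (fun b => par Q b = par Q a ∧ b ≠ a), 1 / (dst a b : ℝ)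

/-- the sum of the logarithms of the local energies on all levels -/
noncomputable def LE (Q : ℕ) : ℕ → Finset (ℤ × ℤ) → ℤ × ℤ → ℝ
  | 0, _, _ => 0
  | m + 1, A, a => Real.log (en Q A a) + LE Q m (A.image (par Q)) (par Q a)

lemma one_le_en (Q : ℕ) (A : Finset (ℤ × ℤ)) (a : ℤ × ℤ) : 1 ≤ en Q A a := by
  unfold en
  have : 0 ≤ ∑ b ∈ A.filter (fun b => par Q b = par Q a ∧ b ≠ a), 1 / (dst a b : ℝ) :=
    sum_nonneg fun _ _ => by positivity
  linarith

lemma dst_pos {a b : ℤ × ℤ} (h : b ≠ a) : 0 < dst a b := by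
  unfold dst
  by_contra hcon
  apply h
  have h1 : (b.1 - a.1).natAbs = 0 := by
    have := le_max_left (b.1 - a.1).natAbs (b.2 - a.2).natAbs
    omega
  have h2 : (b.2 - a.2).natAbs = 0 := by
    have := le_max_right (b.1 - a.1).natAbs (b.2 - a.2).natAbs
    omega
  rw [Int.natAbs_eq_zero] at h1 h2
  exact Prod.ext (by linarith) (by linarith)

lemma dst_lt {Q : ℕ} (hQ : 0 < Q) {a b : ℤ × ℤ} (h : par Q b = par Q a) : dst a b < Q := by
  have hQ' : (0 : ℤ) < Q := by exact_mod_cast hQ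
  have key : ∀ x y : ℤ, x / (Q : ℤ) = y / (Q : ℤ) → (x - y).natAbs < Q := by
    intro x y hxy
    have g1 := Int.emod_add_mul_ediv x Q
    have g2 := Int.emod_add_mul_ediv y Q
    have g3 := Int.emod_nonneg x hQ'.ne'
    have g4 := Int.emod_nonneg y hQ'.ne'
    have g5 := Int.emod_lt_of_pos x hQ'
    have g6 := Int.emod_lt_of_pos y hQ'
    rw [hxy] at g1
    have : |x - y| < (Q : ℤ) := by
      rw [abs_lt]
      constructor <;> linarith
    have e : ((x - y).natAbs : ℤ) < Q := by rw [Int.natCast_natAbs]; exact this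
    exact_mod_cast e
  exact max_lt (key _ _ (congrArg Prod.fst h)) (key _ _ (congrArg Prod.snd h))

/-- the number of indices for which two points have nearly the same projection -/
lemma count_aux (k : ℕ) (u v : ℤ) (hv : v ≠ 0) :
    (((range k).filter fun i : ℕ => |u + (i : ℤ) * v| < 2 * (k : ℤ)).card : ℝ) ≤
      1 + 4 * k / (v.natAbs : ℝ) := by
  set s := (range k).filter fun i : ℕ => |u + (i : ℤ) * v| < 2 * (k : ℤ) with hs
  rcases s.eq_empty_or_nonempty with h0 | h0
  · rw [h0]; simp only [card_empty, Nat.cast_zero]; positivity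
  set D := v.natAbs with hD
  have hDpos : 0 < D := Int.natAbs_pos.2 hv
  set i₀ := s.min' h0 with hi₀
  have hi₀s : i₀ ∈ s := s.min'_mem h0
  have hsub : s ⊆ Finset.Icc i₀ (i₀ + 4 * k / D) := by
    intro i hi
    have hle : i₀ ≤ i := s.min'_le i hi
    rw [Finset.mem_Icc]
    refine ⟨hle, ?_⟩
    rw [hs, mem_filter, mem_range] at hi hi₀s
    obtain ⟨-, h1⟩ := hi
    obtain ⟨-, h2⟩ := hi₀s
    rw [abs_lt] at h1 h2
    have e : (u + (i : ℤ) * v) - (u + (i₀ : ℤ) * v) = ((i - i₀ : ℕ) : ℤ) * v := by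
      rw [Nat.cast_sub hle]
      ring
    have h3 : |((i - i₀ : ℕ) : ℤ) * v| < 4 * k := by
      rw [← e, abs_lt]
      constructor <;> linarith [h1.1, h1.2, h2.1, h2.2]
    have h4 : ((i - i₀) * D : ℕ) < 4 * k := by
      have : (((i - i₀) * D : ℕ) : ℤ) = |((i - i₀ : ℕ) : ℤ) * v| := by
        rw [abs_mul, Nat.abs_cast, Nat.cast_mul, hD, Int.natCast_natAbs]
      have h5 : (((i - i₀) * D : ℕ) : ℤ) < 4 * k := by rw [this]; exact h3
      exact_mod_cast h5
    have h6 : i - i₀ ≤ 4 * k / D := by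
      rw [Nat.le_div_iff_mul_le hDpos]
      exact h4.le
    omega
  have h1 := card_le_card hsub
  rw [Nat.card_Icc] at h1
  have h2 : s.card ≤ 1 + 4 * k / D := by
    refine h1.trans ?_
    generalize 4 * k / D = t
    omega
  have h3 : ((4 * k / D : ℕ) : ℝ) ≤ 4 * k / (D : ℝ) := by
    have := @Nat.cast_div_le ℝ _ _ _ (4 * k) D
    simpa using this
  calc (s.card : ℝ) ≤ ((1 + 4 * k / D : ℕ) : ℝ) := by exact_mod_cast h2
    _ = 1 + ((4 * k / D : ℕ) : ℝ) := by push_cast; ring
    _ ≤ _ := by linarith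

/-- the number of indices for which two points have nearly the same projection -/
lemma count_index {Q k : ℕ} (hQ : 0 < Q) (hQk : Q ≤ k) {a b : ℤ × ℤ} (h : b ≠ a)
    (hp : par Q b = par Q a) :
    (((range k).filter fun i => |vv k i b - vv k i a| < 2 * (k : ℤ)).card : ℝ) ≤
      k * (9 * (1 / (dst a b : ℝ))) := by
  have hk0 : 0 < k := by omega
  have hkr : (0 : ℝ) < k := by exact_mod_cast hk0
  have hkz : (0 : ℤ) < k := by exact_mod_cast hk0
  have hd := dst_pos h
  have hdr : (0 : ℝ) < dst a b := by exact_mod_cast hd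
  have hdk : (dst a b : ℝ) ≤ k := by exact_mod_cast ((dst_lt hQ hp).le.trans hQk)
  set u := b.1 - a.1 with hu
  set v := b.2 - a.2 with hv
  have e : ∀ i : ℕ, vv k i b - vv k i a = (k : ℤ) * u + (i : ℤ) * v := by
    intro i
    simp only [vv, hu, hv]
    ring
  simp only [e]
  have hmul : (1 : ℝ) ≤ k * (1 / (dst a b : ℝ)) := by
    rw [mul_one_div, le_div_iff₀ hdr, one_mul]
    exact hdk
  rcases lt_or_ge (v.natAbs + 1) u.natAbs with hcase | hcase
  · -- far apart in the first coordinate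
    have h1 : (range k).filter (fun i : ℕ => |(k : ℤ) * u + (i : ℤ) * v| < 2 * (k : ℤ)) = ∅ := by
      rw [filter_eq_empty_iff]
      intro i hi hcon
      rw [mem_range] at hi
      have h2 := abs_sub_abs_le_abs_sub ((k : ℤ) * u) (-((i : ℤ) * v))
      rw [abs_neg, abs_mul, abs_mul, Nat.abs_cast, Nat.abs_cast, sub_neg_eq_add,
        Int.abs_eq_natAbs, Int.abs_eq_natAbs] at h2
      have h3 : ((v.natAbs : ℤ) + 2) ≤ u.natAbs := by omega
      have h4 : (i : ℤ) ≤ k := by exact_mod_cast hi.le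
      have h5 : (i : ℤ) * v.natAbs ≤ k * v.natAbs := mul_le_mul_of_nonneg_right h4 (by positivity)
      have h6 : (k : ℤ) * (v.natAbs + 2) ≤ k * u.natAbs := mul_le_mul_of_nonneg_left h3 hkz.le
      linarith
    rw [h1]
    simp only [card_empty, Nat.cast_zero]
    positivity
  · rcases eq_or_ne v 0 with hv0 | hv0
    · -- distance one
      have h1 : dst a b ≤ 1 := by
        unfold dst
        rw [← hu, ← hv, hv0]
        rw [hv0] at hcase
        simpa using hcase
      have h2 : (((range k).filter fun i : ℕ => |(k : ℤ) * u + (i : ℤ) * v| < 2 * (k : ℤ)).card : ℝ)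
          ≤ k := by
        have := card_filter_le (range k) fun i : ℕ => |(k : ℤ) * u + (i : ℤ) * v| < 2 * (k : ℤ)
        rw [card_range] at this
        exact_mod_cast this
      have h3 : (dst a b : ℝ) = 1 := by
        have : dst a b = 1 := by omega
        rw [this]; norm_num
      rw [h3]
      linarith
    · have h1 := count_aux k ((k : ℤ) * u) v hv0
      have hvpos : 0 < v.natAbs := Int.natAbs_pos.2 hv0
      have h2 : dst a b ≤ 2 * v.natAbs := by
        unfold dst
        rw [← hu, ← hv]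
        apply max_le <;> omega
      have hvr : (0 : ℝ) < v.natAbs := by exact_mod_cast hvpos
      have h3 : (dst a b : ℝ) ≤ 2 * v.natAbs := by exact_mod_cast h2
      have h4 : 4 * (k : ℝ) / (v.natAbs : ℝ) ≤ k * (8 * (1 / (dst a b : ℝ))) := by
        rw [div_le_iff₀ hvr]
        have h5 : (k : ℝ) * (8 * (1 / (dst a b : ℝ))) * v.natAbs =
            4 * k * ((2 * v.natAbs) / (dst a b : ℝ)) := by ring
        rw [h5]
        have h6 : (1 : ℝ) ≤ (2 * v.natAbs) / (dst a b : ℝ) := by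
          rw [le_div_iff₀ hdr, one_mul]
          exact h3
        calc 4 * (k : ℝ) = 4 * k * 1 := by ring
          _ ≤ _ := mul_le_mul_of_nonneg_left h6 (by positivity)
      calc _ ≤ 1 + 4 * (k : ℝ) / (v.natAbs : ℝ) := h1
        _ ≤ k * (1 / (dst a b : ℝ)) + k * (8 * (1 / (dst a b : ℝ))) := add_le_add hmul h4
        _ = _ := by ring

/-- **The mean number of neighbours.** -/
lemma sum_nb {Q : ℕ} (hQ : 0 < Q) (A : Finset (ℤ × ℤ)) {a : ℤ × ℤ} (ha : a ∈ A) :
    ∑ i ∈ range Q, ((nb Q Q i A a).card : ℝ) ≤ Q * en Q A a := by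
  set F := A.filter fun b => par Q b = par Q a with hF
  have h1 : ∑ i ∈ range Q, ((nb Q Q i A a).card : ℝ) =
      ∑ b ∈ F, (((range Q).filter fun i => |vv Q i b - vv Q i a| < 2 * (Q : ℤ)).card : ℝ) := by
    have e1 : ∀ i, ((nb Q Q i A a).card : ℝ) =
        ∑ b ∈ F, if |vv Q i b - vv Q i a| < 2 * (Q : ℤ) then 1 else 0 := by
      intro i
      rw [nb, ← filter_filter, ← hF, card_filter]
      push_cast
      rfl
    have e2 : ∀ b, (((range Q).filter fun i => |vv Q i b - vv Q i a| < 2 * (Q : ℤ)).card : ℝ) =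
        ∑ i ∈ range Q, if |vv Q i b - vv Q i a| < 2 * (Q : ℤ) then 1 else 0 := by
      intro b
      rw [card_filter]
      push_cast
      rfl
    simp only [e1, e2]
    exact sum_comm
  have haF : a ∈ F := by
    rw [hF, mem_filter]
    exact ⟨ha, rfl⟩
  rw [h1, ← add_sum_erase _ _ haF, en, mul_add, mul_one]
  apply add_le_add
  · have := card_filter_le (range Q) fun i => |vv Q i a - vv Q i a| < 2 * (Q : ℤ)
    rw [card_range] at this
    exact_mod_cast this
  · have e : F.erase a = A.filter (fun b => par Q b = par Q a ∧ b ≠ a) := by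
      ext b
      simp only [hF, mem_erase, mem_filter]
      tauto
    rw [e, mul_sum, mul_sum]
    apply sum_le_sum
    intro b hb
    rw [mem_filter] at hb
    exact count_index hQ le_rfl hb.2.2 hb.2.1

lemma sum_log {Q : ℕ} (hQ : 0 < Q) (A : Finset (ℤ × ℤ)) {a : ℤ × ℤ} (ha : a ∈ A) :
    ∑ i ∈ range Q, Real.log ((nb Q Q i A a).card : ℝ) ≤ Q * Real.log (en Q A a) := by
  have hc : 0 < en Q A a := by linarith [one_le_en Q A a]
  set c := en Q A a with hcdef
  have h1 : ∀ i ∈ range Q, Real.log ((nb Q Q i A a).card : ℝ) ≤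
      Real.log c + (((nb Q Q i A a).card : ℝ) / c - 1) := by
    intro i _
    have hpos : (0 : ℝ) < (nb Q Q i A a).card := by
      exact_mod_cast card_pos.2 ⟨a, self_mem_nb hQ ha⟩
    have h2 := Real.log_le_sub_one_of_pos (div_pos hpos hc)
    rw [Real.log_div hpos.ne' hc.ne'] at h2
    linarith
  refine (sum_le_sum h1).trans ?_
  rw [sum_add_distrib, sum_sub_distrib, ← sum_div]
  simp only [sum_const, card_range, nsmul_eq_mul, mul_one]
  have h2 := sum_nb hQ A ha
  have h3 : (∑ i ∈ range Q, ((nb Q Q i A a).card : ℝ)) / c ≤ Q := by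
    rw [div_le_iff₀ hc]
    exact h2
  linarith

lemma sum_LS {Q : ℕ} (hQ : 0 < Q) (m : ℕ) : ∀ (A : Finset (ℤ × ℤ)) (a : ℤ × ℤ), a ∈ A →
    ∑ i ∈ range Q, LS Q Q i m A a ≤ Q * LE Q m A a := by
  induction m with
  | zero => intro A a _; simp [LS, LE]
  | succ m ih =>
    intro A a ha
    have h1 := sum_log hQ A ha
    have h2 := ih (A.image (par Q)) (par Q a) (mem_image_of_mem _ ha)
    simp only [LS, LE, sum_add_distrib]
    rw [mul_add]
    exact add_le_add h1 h2

/-- **The universal inequality.** -/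
theorem universal {Q : ℕ} (hQ : 0 < Q) (m : ℕ) (A : Finset (ℤ × ℤ)) (hA : A.Nonempty) :
    ∃ i ∈ range Q, (A.card : ℝ) ≤ (up Q m A).card *
      Real.exp ((∑ a ∈ A, LE Q m A a) / A.card) * (A.image (vv Q i)).card := by
  classical
  have hc0 : (0 : ℝ) < A.card := by exact_mod_cast card_pos.2 hA
  -- choice of the index
  obtain ⟨i, hi, h1⟩ : ∃ i ∈ range Q, ∑ a ∈ A, LS Q Q i m A a ≤ ∑ a ∈ A, LE Q m A a := by
    by_contra hcon
    push Not at hcon
    have h2 : ∑ i ∈ range Q, ∑ a ∈ A, LE Q m A a < ∑ i ∈ range Q, ∑ a ∈ A, LS Q Q i m A a :=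
      sum_lt_sum_of_nonempty ⟨0, mem_range.2 hQ⟩ hcon
    rw [sum_comm (s := range Q) (t := A) (f := fun i a => LS Q Q i m A a), sum_const, card_range,
      nsmul_eq_mul, mul_sum] at h2
    have h3 : ∑ a ∈ A, ∑ i ∈ range Q, LS Q Q i m A a ≤ ∑ a ∈ A, (Q : ℝ) * LE Q m A a :=
      sum_le_sum fun a ha => sum_LS hQ m A a ha
    linarith
  refine ⟨i, hi, ?_⟩
  have hiQ : i < Q := mem_range.1 hi
  have hQZ : (0 : ℤ) < Q := by exact_mod_cast hQ
  set x₀ := -((∑ a ∈ A, LS Q Q i m A a) / A.card) with hx₀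
  -- Jensen
  have h3 : (A.card : ℝ) * Real.exp x₀ ≤ ∑ a ∈ A, Real.exp (-LS Q Q i m A a) := by
    have h4 : ∀ a ∈ A, Real.exp x₀ * (1 + (-LS Q Q i m A a - x₀)) ≤
        Real.exp (-LS Q Q i m A a) := by
      intro a _
      have h5 := Real.add_one_le_exp (-LS Q Q i m A a - x₀)
      calc Real.exp x₀ * (1 + (-LS Q Q i m A a - x₀)) ≤
          Real.exp x₀ * Real.exp (-LS Q Q i m A a - x₀) :=
            mul_le_mul_of_nonneg_left (by linarith) (Real.exp_pos _).le
        _ = _ := by rw [← Real.exp_add]; ring_nf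
    refine le_trans (le_of_eq ?_) (sum_le_sum h4)
    rw [← mul_sum, sum_add_distrib, sum_sub_distrib, sum_neg_distrib]
    simp only [sum_const, nsmul_eq_mul, mul_one]
    have h6 : (A.card : ℝ) * x₀ = -∑ a ∈ A, LS Q Q i m A a := by
      rw [hx₀]
      field_simp
    rw [h6]
    ring
  have h4 : ∑ a ∈ A, Real.exp (-LS Q Q i m A a) ≤
      (A.image (vv Q i)).card * (up Q m A).card := by
    have hmaps : ∀ a ∈ A, vv Q i a ∈ A.image (vv Q i) := by
      intro a ha
      exact mem_image_of_mem _ ha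
    rw [← sum_fiberwise_of_maps_to hmaps, ← nsmul_eq_mul]
    apply sum_le_card_nsmul
    intro V _
    refine le_trans ?_ (fibre hQ hiQ m A V)
    apply sum_le_sum_of_subset_of_nonneg
    · intro a ha
      rw [mem_filter] at ha ⊢
      refine ⟨ha.1, ?_, ?_⟩
      · rw [ha.2]; linarith
      · rw [ha.2]
    · intros; exact (Real.exp_pos _).le
  have h5 : (A.card : ℝ) ≤ (A.image (vv Q i)).card * (up Q m A).card * Real.exp (-x₀) := by
    have h6 := mul_le_mul_of_nonneg_right (h3.trans h4) (Real.exp_pos (-x₀)).le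
    rw [mul_assoc, ← Real.exp_add, add_neg_cancel, Real.exp_zero, mul_one] at h6
    exact h6
  have h7 : Real.exp (-x₀) ≤ Real.exp ((∑ a ∈ A, LE Q m A a) / A.card) := by
    apply Real.exp_le_exp.2
    rw [hx₀, neg_neg]
    exact div_le_div_of_nonneg_right h1 hc0.le
  calc (A.card : ℝ) ≤ (A.image (vv Q i)).card * (up Q m A).card * Real.exp (-x₀) := h5
    _ ≤ (A.image (vv Q i)).card * (up Q m A).card *
        Real.exp ((∑ a ∈ A, LE Q m A a) / A.card) :=
        mul_le_mul_of_nonneg_left h7 (by positivity)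
    _ = _ := by ring

end Pool.Agent.N326.AK
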